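import Pool.Agent.Helper95.GB.PX.Forest

/-! # GB/PX/GrL: connected graphs and rotation systems (stub, prove in place)

`hσ : ∀ d d', G.vt d = G.vt d' ↔ σ.SameCycle d d'`.
* `vt_surj`: let `d` be a half-edge; a walk from `v` to `vt d` is `[]` (then `v = vt d`) or starts with a half-edge at `v`.
* `card_V`: `v ↦` the class of a half-edge at `v` is a bijection `V ≃ Cyc σ`.
* `dart_conn`: `S` contains with `d` all half-edges at `vt d` (`SameCycle`, `S` is closed under `σ` and `σ⁻¹`).  For a walk from `vt d`,
`d ∈ S`, to `v`: all half-edges at `v` are in `S` (induction on the walk: the first half-edge `d'` is at `vt d`, so in `S`, so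
`opp d' ∈ S`).
* `nonbridge`: transport `σ` to `σ₁ : Perm (XX E Empty)` along `XX E Empty ≃ Dart E` (`inl d ↔ d`); `Conn2 σ₁` by `dart_conn`.  `exists_tree`: `T₀` with
`nc (σ₁ * al T₀) = 1`, `|T₀| + 1 = nc σ₁ = nc σ`.  Since `σ` has no fixed points (`hdeg`: there is another half-edge at the vertex),
`2 * nc σ ≤ Nat.card (Dart E) = 2 * |E|` (injection `Cyc σ × Bool → Dart E`: representative `x` and `σ x`; distinct classes give
different elements, `x ≠ σ x`), so `|T₀| + 1 ≤ |E|` and there is `r ∉ T₀`.  If `S` is as in the statement then `S` (in `XX E Empty`) is closed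
under `σ₁ * al T₀` in both directions, which has only one cycle, so `S = univ`.
-/

set_option autoImplicit false

namespace GB

namespace PX

variable {V E : Type} {G : Gr V E} {σ : Equiv.Perm (Dart E)}

theorem vt_surj (hc : G.Connected) (hE : Nonempty E) (v : V) : ∃ d, G.vt d = v := by
  obtain ⟨e⟩ := hE
  obtain ⟨l, hl⟩ := hc.2 v (G.vt (e, true))
  cases l with
  | nil => exact ⟨(e, true), (show v = G.vt (e, true) from hl).symm⟩
  | cons d l => exact ⟨d, hl.1⟩

theorem card_V (hσ : ∀ d d', G.vt d = G.vt d' ↔ σ.SameCycle d d')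
    (hs : ∀ v, ∃ d, G.vt d = v) : Nat.card V = nc σ := by
  symm
  unfold nc
  let f : Gr.Cyc σ → V := Quotient.lift G.vt (fun a b h => (hσ a b).2 h)
  have hinj : Function.Injective f := by
    intro c d hcd
    induction c using Quotient.inductionOn' with
    | h u =>
      induction d using Quotient.inductionOn' with
      | h w => exact Quotient.sound' ((hσ u w).1 hcd)
  have hsurj : Function.Surjective f := by
    intro v
    obtain ⟨d, hd⟩ := hs v
    exact ⟨Quotient.mk'' d, hd⟩
  exact Nat.card_congr (Equiv.ofBijective f ⟨hinj, hsurj⟩)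

private theorem closed_zpow {X : Type} {σ : Equiv.Perm X} {S : Set X} (h1 : ∀ x, σ x ∈ S ↔ x ∈ S)
    {x y : X} (h : σ.SameCycle x y) : x ∈ S ↔ y ∈ S := by
  obtain ⟨i, hi⟩ := h
  subst hi
  induction i using Int.induction_on with
  | zero => simp
  | succ i ih =>
    rw [ih, add_comm, zpow_add, zpow_one, Equiv.Perm.mul_apply]
    exact (h1 _).symm
  | pred i ih =>
    rw [ih]
    have h2 : σ ((σ ^ (-(i : ℤ) - 1)) x) = (σ ^ (-(i : ℤ))) x := by
      have : (σ ^ (-(i : ℤ))) = σ * σ ^ (-(i : ℤ) - 1) := by
        rw [← zpow_one_add]; congr 1; ring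
      rw [this, Equiv.Perm.mul_apply]
    rw [← h2]
    exact h1 _

theorem dart_conn (hc : G.Connected) (hσ : ∀ d d', G.vt d = G.vt d' ↔ σ.SameCycle d d')
    (S : Set (Dart E)) (hne : S.Nonempty) (h1 : ∀ x, σ x ∈ S ↔ x ∈ S)
    (h2 : ∀ x ∈ S, opp x ∈ S) : S = Set.univ := by
  obtain ⟨d0, hd0⟩ := hne
  have hv : ∀ d d', G.vt d = G.vt d' → d ∈ S → d' ∈ S := fun d d' h hd =>
    (closed_zpow h1 ((hσ d d').1 h)).1 hd
  have key : ∀ (l : List (Dart E)) (u v : V), G.IsWalk u l v → (∀ d, G.vt d = u → d ∈ S) →
      ∀ d, G.vt d = v → d ∈ S := by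
    intro l
    induction l with
    | nil =>
      intro u v huv h d hd
      exact h d (hd.trans (show u = v from huv).symm)
    | cons a l ih =>
      intro u v huv h d hd
      refine ih _ v huv.2 ?_ d hd
      intro d' hd'
      exact hv _ _ hd'.symm (h2 _ (h a huv.1))
  apply Set.eq_univ_of_forall
  intro d
  obtain ⟨l, hl⟩ := hc.2 (G.vt d0) (G.vt d)
  exact key l _ _ hl (fun d' hd' => hv d0 d' hd'.symm hd0) d rfl

theorem nonbridge [Fintype E] [DecidableEq E] (hc : G.Connected) (hE : Nonempty E)
    (hσ : ∀ d d', G.vt d = G.vt d' ↔ σ.SameCycle d d')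
    (hdeg : ∀ d, ∃ d', G.vt d' = G.vt d ∧ d' ≠ d) :
    ∃ r : E, ∀ S : Set (Dart E), S.Nonempty → (∀ x, σ x ∈ S ↔ x ∈ S) →
      (∀ e b, e ≠ r → ((e, b) : Dart E) ∈ S → ((e, !b) : Dart E) ∈ S) → S = Set.univ := by
  let q : Dart E ≃ XX E Empty := (Equiv.sumEmpty (Dart E) Empty).symm
  have hq : ∀ d, q d = .inl d := fun d => rfl
  let σ₁ : Equiv.Perm (XX E Empty) := (q.symm.trans σ).trans q
  have hσ₁ : ∀ d, σ₁ (.inl d) = .inl (σ d) := fun d => rfl
  have hfix : ∀ d, σ d ≠ d := by
    intro d hd
    obtain ⟨d', h1, h2⟩ := hdeg d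
    have h3 := (hσ d' d).1 h1
    obtain ⟨i, hi⟩ := h3.symm
    apply h2
    rw [← hi]
    exact (Function.IsFixedPt.perm_zpow (e := σ) hd i)
  obtain ⟨e0⟩ := hE
  have : Nonempty (XX E Empty) := ⟨.inl (e0, true)⟩
  have hconn : Conn2 σ₁ := by
    intro S hS h1 h2
    have h3 : (q ⁻¹' S) = Set.univ := by
      refine dart_conn hc hσ (q ⁻¹' S) ?_ ?_ ?_
      · obtain ⟨x, hx⟩ := hS
        refine ⟨q.symm x, ?_⟩
        simpa using hx
      · intro x
        have := h1 (q x)
        exact this
      · rintro ⟨e, b⟩ hx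
        exact h2 e b hx
    apply Set.eq_univ_of_forall
    intro x
    have : q.symm x ∈ q ⁻¹' S := by rw [h3]; trivial
    simpa using this
  obtain ⟨T, hT1, hT2⟩ := exists_tree hconn
  have hnc : nc σ₁ = nc σ := by
    unfold nc
    let f : Gr.Cyc σ → Gr.Cyc σ₁ := Quotient.map' q (fun u w hu => by
      obtain ⟨i, hi⟩ := hu
      refine ⟨i, ?_⟩
      subst hi
      have : ∀ (i : ℤ) (u : Dart E), (σ₁ ^ i) (q u) = q ((σ ^ i) u) := by
        intro i u
        have h5 : σ₁ = q.permCongr σ := rfl
        have h6 : q.permCongr σ ^ i = q.permCongr (σ ^ i) := by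
          have := map_zpow (q.permCongrHom) σ i
          exact this.symm
        rw [h5, h6]
        simp
      exact this i u)
    have hinj : Function.Injective f := by
      intro c d hcd
      induction c using Quotient.inductionOn' with
      | h u =>
        induction d using Quotient.inductionOn' with
        | h w =>
          have h7 : σ₁.SameCycle (q u) (q w) := Quotient.exact' hcd
          obtain ⟨i, hi⟩ := h7
          have h5 : σ₁ = q.permCongr σ := rfl
          have h6 : q.permCongr σ ^ i = q.permCongr (σ ^ i) := by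
            have := map_zpow (q.permCongrHom) σ i
            exact this.symm
          rw [h5, h6] at hi
          refine Quotient.sound' ⟨i, ?_⟩
          apply q.injective
          rw [← hi]
          simp
    have hsurj : Function.Surjective f := by
      intro c
      induction c using Quotient.inductionOn' with
      | h u => exact ⟨Quotient.mk'' (q.symm u), by
          change Quotient.mk'' (q (q.symm u)) = _
          rw [Equiv.apply_symm_apply]⟩
    exact (Nat.card_congr (Equiv.ofBijective f ⟨hinj, hsurj⟩)).symm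
  have hle : 2 * nc σ ≤ 2 * Fintype.card E := by
    have hfin : Finite (Gr.Cyc σ) := cyc_finite σ
    let g : Gr.Cyc σ × Bool → Dart E := fun p => if p.2 then p.1.out else σ p.1.out
    have hcl : ∀ p : Gr.Cyc σ × Bool, (Quotient.mk'' (g p) : Gr.Cyc σ) = p.1 := by
      rintro ⟨c, b⟩
      cases b
      · have h1 : (Quotient.mk'' (σ c.out) : Gr.Cyc σ) = Quotient.mk'' c.out :=
          Quotient.sound' (by
            have h2 : σ.SameCycle (σ c.out) c.out :=
              (Equiv.Perm.sameCycle_apply_left).2 (Equiv.Perm.SameCycle.refl _ _)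
            exact h2)
        change (Quotient.mk'' (σ c.out) : Gr.Cyc σ) = c
        rw [h1]
        exact Quotient.out_eq c
      · exact Quotient.out_eq c
    have hg : Function.Injective g := by
      rintro ⟨c, b⟩ ⟨c', b'⟩ h
      have h1 : c = c' := by
        have h2 := hcl (c, b)
        rw [h, hcl (c', b')] at h2
        exact h2.symm
      subst h1
      cases b <;> cases b'
      · rfl
      · exact absurd h (hfix _)
      · exact absurd h.symm (hfix _)
      · rfl
    have h1 := Nat.card_le_card_of_injective g hg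
    rw [Nat.card_prod, Nat.card_prod] at h1
    simp only [Nat.card_eq_fintype_card, Fintype.card_bool] at h1
    unfold nc
    omega
  have hlt : T.card < Fintype.card E := by omega
  obtain ⟨r, hr⟩ : ∃ r, r ∉ T := by
    by_contra hcon
    push Not at hcon
    have : T = Finset.univ := Finset.eq_univ_iff_forall.2 hcon
    rw [this, Finset.card_univ] at hlt
    exact lt_irrefl _ hlt
  refine ⟨r, fun S hS h1 h2 => ?_⟩
  have hall := (nc_one_iff (σ₁ * al T)).1 hT1
  have hflip : ∀ x : Dart E, (∃ y : Dart E, (al T : Equiv.Perm (XX E Empty)) (.inl x) = .inl y ∧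
      (y ∈ S ↔ x ∈ S)) := by
    rintro ⟨e, b⟩
    by_cases he : e ∈ T
    · refine ⟨(e, !b), ?_, ?_⟩
      · change alF T (.inl (e, b)) = _
        simp [alF, he]
      · have hne : e ≠ r := fun h => hr (h ▸ he)
        constructor
        · intro h
          have := h2 e (!b) hne h
          simpa using this
        · exact h2 e b hne
    · refine ⟨(e, b), ?_, Iff.rfl⟩
      change alF T (.inl (e, b)) = _
      simp [alF, he]
  have himg : ∀ x : Dart E, (Sum.inl x : XX E Empty) ∈ (Sum.inl '' S : Set (XX E Empty)) ↔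
      x ∈ S := by
    intro x
    constructor
    · rintro ⟨y, hy, hyx⟩
      rw [Sum.inl.injEq] at hyx
      rw [← hyx]
      exact hy
    · intro hx
      exact ⟨x, hx, rfl⟩
  have hcl : ∀ x : XX E Empty, (σ₁ * al T : Equiv.Perm (XX E Empty)) x ∈
      (Sum.inl '' S : Set (XX E Empty)) ↔ x ∈ (Sum.inl '' S : Set (XX E Empty)) := by
    rintro (x | ρ)
    · obtain ⟨y, hy, hyS⟩ := hflip x
      rw [Equiv.Perm.mul_apply, hy, hσ₁, himg, himg, h1]
      exact hyS
    · exact ρ.elim
  apply Set.eq_univ_of_forall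
  intro x
  obtain ⟨s, hs⟩ := hS
  exact (himg x).1 ((closed_zpow hcl (hall (.inl s) (.inl x))).1 ((himg s).2 hs))

end PX

end GB
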