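import Pool.Agent.Helper95.GB.PX.Real
import Pool.Agent.Helper95.GB.PX.GrL

/-! # GB/PX/RootQ: root edge which is a leaf (stub, prove in place)

`q` is the only half-edge at its vertex: `σ q = q`.  `r = q.1`, `β = !q.2`, `Z = Empty`, `b₀ = (r, β) = opp q`.  `κ = kap r β` is
injective with image `{d | d ≠ q}`, which is invariant under `σ`; `σ'` is the restriction of `σ` (`κ (σ' x) = σ (κ x)`).
`fix`: if `κ : X → Y` is injective with image the complement of `{q}`, `κ (π' x) = π (κ x)`, `π q = q`, then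
`nc π = nc π' + 1` (`Cyc π ≃ Option (Cyc π')`) and `SameCycle π' x y ↔ SameCycle π (κ x) (κ y)`.
`Conn2 σ'`: let `S` be as there, `S₁ = κ '' S`, and `S₂ = S₁ ∪ {q}` if `b₀ ∈ S₁`, `S₂ = S₁` otherwise.  `S₂` is closed under `σ`, `σ⁻¹` and
`opp`, so `S₂ = univ` (`dart_conn`); so `S = univ` (and in the second case `q ∈ S₁` is a contradiction).
`Pl σ'`: `Empty` has no elements; the second part: `nc σ' + nc (σ' * al univ) = |E| - 1 + 2`.  `nc σ = nc σ' + 1 = Nat.card V` (`fix`, `card_V`).
Let `ψ = σ * oppPerm E * swap b₀ q`: `ψ q = σ (opp b₀) = σ q = q`, and `κ ((σ' * al univ) x) = ψ (κ x)`: for `x = inr none`: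
`ψ b₀ = σ (opp q) = σ b₀`; for `x = inl (e, b)`: `σ (e, !b)`.  So `nc ψ = nc (σ' * al univ) + 1` (`fix`).  `σ * oppPerm E = ψ * swap b₀ q`, and `b₀`, `q`
are in different cycles of `ψ` (`q` is fixed, `b₀ ≠ q`): `merge_nc`: `nc (σ * oppPerm E) + 1 = nc ψ`.  So
`nc (σ * oppPerm E) = nc (σ' * al univ)` and Euler's formula gives the claim.  Then `rz_of` (`hZ'` is the hypothesis on `q`, `(r, !β) = q`).
-/

set_option autoImplicit false

namespace GB

namespace PX

section rootq_aux

variable {X Y : Type} {κ : X → Y} {q : Y}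

private theorem rootq_zpow {π' : Equiv.Perm X} {π : Equiv.Perm Y} (h : ∀ x, κ (π' x) = π (κ x))
    (n : ℤ) (x : X) : κ ((π' ^ n) x) = (π ^ n) (κ x) := by
  have hnat : ∀ (m : ℕ) (x : X), κ ((π' ^ m) x) = (π ^ m) (κ x) := by
    intro m
    induction m with
    | zero => intro x; rfl
    | succ m ih =>
      intro x
      rw [pow_succ', pow_succ', Equiv.Perm.mul_apply, Equiv.Perm.mul_apply, h, ih]
  rcases n with m | m
  · rw [Int.ofNat_eq_natCast, zpow_natCast, zpow_natCast]
    exact hnat m x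
  · rw [zpow_negSucc, zpow_negSucc]
    rw [Equiv.Perm.eq_inv_iff_eq, ← hnat]
    exact congrArg κ (Equiv.apply_symm_apply _ _)

private theorem rootq_same (hκ : Function.Injective κ) {π' : Equiv.Perm X} {π : Equiv.Perm Y}
    (h : ∀ x, κ (π' x) = π (κ x)) (x y : X) :
    π'.SameCycle x y ↔ π.SameCycle (κ x) (κ y) := by
  constructor
  · rintro ⟨n, hn⟩
    exact ⟨n, by rw [← rootq_zpow h, hn]⟩
  · rintro ⟨n, hn⟩
    exact ⟨n, hκ (by rw [rootq_zpow h, hn])⟩

private theorem rootq_fix {π : Equiv.Perm Y} (hq : π q = q) {y : Y} (h : π.SameCycle q y) :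
    y = q := by
  obtain ⟨n, hn⟩ := h
  rw [← hn]
  exact (Function.IsFixedPt.perm_zpow (e := π) hq n)

private theorem rootq_nc [Finite X] (hκ : Function.Injective κ) (h1 : ∀ x, κ x ≠ q)
    (h2 : ∀ y, y ≠ q → ∃ x, κ x = y) {π' : Equiv.Perm X} {π : Equiv.Perm Y}
    (h : ∀ x, κ (π' x) = π (κ x)) (hfix : π q = q) : nc π = nc π' + 1 := by
  have := cyc_finite π'
  unfold nc
  rw [← Finite.card_option]
  symm
  let g : Option (Gr.Cyc π') → Gr.Cyc π := fun o => match o with
    | none => Quotient.mk'' q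
    | some c => Quotient.map' κ (fun u w hu => (rootq_same hκ h u w).1 hu) c
  have hinj : Function.Injective g := by
    rintro (_ | c) (_ | d) hcd
    · rfl
    · induction d using Quotient.inductionOn' with
      | h w =>
        have h3 : π.SameCycle q (κ w) := Quotient.exact' hcd
        exact absurd (rootq_fix hfix h3) (h1 w)
    · induction c using Quotient.inductionOn' with
      | h w =>
        have h3 : π.SameCycle (κ w) q := Quotient.exact' hcd
        exact absurd (rootq_fix hfix h3.symm) (h1 w)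
    · induction c using Quotient.inductionOn' with
      | h u =>
        induction d using Quotient.inductionOn' with
        | h w =>
          have h3 : π.SameCycle (κ u) (κ w) := Quotient.exact' hcd
          exact congrArg some (Quotient.sound' ((rootq_same hκ h u w).2 h3))
  have hsurj : Function.Surjective g := by
    intro c
    induction c using Quotient.inductionOn' with
    | h y =>
      by_cases hy : y = q
      · exact ⟨none, by rw [hy]⟩
      · obtain ⟨x, hx⟩ := h2 y hy
        exact ⟨some (Quotient.mk'' x), by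
          change Quotient.mk'' (κ x) = _
          rw [hx]⟩
  exact Nat.card_congr (Equiv.ofBijective g ⟨hinj, hsurj⟩)

private theorem rootq_res (hκ : Function.Injective κ) (h1 : ∀ x, κ x ≠ q)
    (h2 : ∀ y, y ≠ q → ∃ x, κ x = y) (π : Equiv.Perm Y) (hfix : π q = q) :
    ∃ π' : Equiv.Perm X, ∀ x, κ (π' x) = π (κ x) := by
  have h3 : ∀ y, y ≠ q → π y ≠ q := fun y hy h => hy (π.injective (h.trans hfix.symm))
  have hfix' : π⁻¹ q = q := by
    rw [Equiv.Perm.inv_eq_iff_eq]
    exact hfix.symm
  have h4 : ∀ y, y ≠ q → π⁻¹ y ≠ q := fun y hy h => hy ((π⁻¹).injective (h.trans hfix'.symm))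
  choose inv hinv using h2
  refine ⟨⟨fun x => inv (π (κ x)) (h3 _ (h1 x)), fun x => inv (π⁻¹ (κ x)) (h4 _ (h1 x)), ?_, ?_⟩, ?_⟩
  · intro x
    apply hκ
    simp only
    rw [hinv]
    rw [hinv]
    exact Equiv.symm_apply_apply _ _
  · intro x
    apply hκ
    simp only
    rw [hinv]
    rw [hinv]
    exact Equiv.apply_symm_apply _ _
  · intro x
    exact hinv _ _

end rootq_aux

theorem root_q {V E : Type} [Fintype E] [DecidableEq E] {G : Gr V E}
    {σ : Equiv.Perm (Dart E)} (hc : G.Connected)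
    (hσ : ∀ d d', G.vt d = G.vt d' ↔ σ.SameCycle d d')
    (hEu : Nat.card V + Nat.card (Gr.Cyc (σ * oppPerm E)) = Nat.card E + 2)
    (q : Dart E) (hq : ∀ d', G.vt d' = G.vt q → d' = q) :
    ∃ (W C : Type) (_ : Fintype W) (_ : Fintype C) (P : PD W C Empty), P.Ax ∧
      Nonempty (Rz G P.dg) := by
  classical
  obtain ⟨r, γ⟩ := q
  set q : Dart E := (r, γ) with hqdef
  set κ : XX {e : E // e ≠ r} (Option Empty) → Dart E := kap r (!γ) with hκdef
  have hκ : Function.Injective κ := kap_injective r (!γ) fun k => k.elim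
  have hqq : ((r, !(!γ)) : Dart E) = q := by rw [Bool.not_not]
  have h1 : ∀ x, κ x ≠ q := by
    rintro (⟨e, b⟩ | (_ | k)) h
    · have h' : ((e.1, b) : Dart E) = (r, γ) := h
      rw [Prod.mk.injEq] at h'
      exact e.2 h'.1
    · have h' : ((r, !γ) : Dart E) = (r, γ) := h
      rw [Prod.mk.injEq] at h'
      revert h'
      cases γ <;> simp
    · exact k.elim
  have h2 : ∀ y, y ≠ q → ∃ x, κ x = y := by
    intro y hy
    rcases kap_cov (Z := Empty) r (!γ) y with h | ⟨-, h⟩
    · exact h
    · exact absurd (h.trans hqq) hy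
  have hfix : σ q = q := hq _ ((hσ (σ q) q).2 (by
    rw [Equiv.Perm.sameCycle_apply_left]))
  obtain ⟨σ', hσ'⟩ := rootq_res hκ h1 h2 σ hfix
  have hE : Nonempty E := ⟨r⟩
  have hsurj : ∀ v, ∃ d, G.vt d = v := vt_surj hc hE
  have hV : Nat.card V = nc σ := card_V hσ hsurj
  refine rz_of G r (!γ) (fun k => k.elim) σ' ?_ ?_ hsurj ?_ ?_
  · intro x y
    rw [rootq_same hκ hσ', ← hσ]
  · intro _ d' hd'
    rw [hqq] at hd' ⊢
    exact hq d' hd'
  · intro S hne hS1 hS2
    let S2 : Set (Dart E) := {d | (∃ x ∈ S, κ x = d) ∨ (d = q ∧ (.inr none : XX _ _) ∈ S)}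
    have hmem : ∀ x, κ x ∈ S2 ↔ x ∈ S := by
      intro x
      constructor
      · rintro (⟨y, hy, hxy⟩ | ⟨h, -⟩)
        · rw [← hκ hxy]
          exact hy
        · exact absurd h (h1 x)
      · intro hx
        exact Or.inl ⟨x, hx, rfl⟩
    have huniv : S2 = Set.univ := by
      refine dart_conn hc hσ S2 ?_ ?_ ?_
      · obtain ⟨x, hx⟩ := hne
        exact ⟨κ x, (hmem x).2 hx⟩
      · intro d
        by_cases hd : d = q
        · rw [hd, hfix]
        · obtain ⟨x, rfl⟩ := h2 d hd
          rw [← hσ', hmem, hmem]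
          exact hS1 x
      · rintro d (⟨x, hx, rfl⟩ | ⟨rfl, hx⟩)
        · rcases x with ⟨e, b⟩ | (_ | k)
          · exact (hmem (.inl (e, !b))).2 (hS2 e b hx)
          · refine Or.inr ⟨?_, hx⟩
            change ((r, !(!γ)) : Dart E) = q
            exact hqq
          · exact k.elim
        · exact (hmem (.inr none)).2 hx
    apply Set.eq_univ_of_forall
    intro x
    rw [← hmem, huniv]
    trivial
  · refine ⟨fun k => k.elim, fun _ => ?_⟩
    set b₀ : Dart E := (r, !γ) with hb₀
    have hb₀q : b₀ ≠ q := h1 (.inr none)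
    set ψ : Equiv.Perm (Dart E) := σ * oppPerm E * Equiv.swap b₀ q with hψ
    have hoppb : opp b₀ = q := hqq
    have hoppq : opp q = b₀ := rfl
    have hψq : ψ q = q := by
      rw [hψ, Equiv.Perm.mul_apply, Equiv.Perm.mul_apply, Equiv.swap_apply_right]
      change σ (opp b₀) = q
      rw [hoppb, hfix]
    have hψκ : ∀ x, κ ((σ' * (al Finset.univ : Equiv.Perm (XX {e : E // e ≠ r} (Option Empty)))) x) =
        ψ (κ x) := by
      intro x
      rw [Equiv.Perm.mul_apply, hσ', hψ, Equiv.Perm.mul_apply, Equiv.Perm.mul_apply]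
      congr 1
      rcases x with ⟨e, b⟩ | (_ | k)
      · rw [Equiv.swap_apply_of_ne_of_ne (fun h => ?_) (h1 _)]
        · change κ (alF Finset.univ (.inl (e, b))) = _
          simp only [alF, Finset.mem_univ, if_true]
          rfl
        · have h' : ((e.1, b) : Dart E) = (r, !γ) := h
          rw [Prod.mk.injEq] at h'
          exact e.2 h'.1
      · have h3 : κ (.inr none) = b₀ := rfl
        rw [h3, Equiv.swap_apply_left]
        rfl
      · exact k.elim
    have n1 := rootq_nc hκ h1 h2 hσ' hfix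
    have n2 := rootq_nc hκ h1 h2 hψκ hψq
    have n3 : nc (ψ * Equiv.swap b₀ q) + 1 = nc ψ := merge_nc fun h => hb₀q (rootq_fix hψq h.symm)
    have n4 : ψ * Equiv.swap b₀ q = σ * oppPerm E := by
      rw [hψ, mul_assoc, Equiv.swap_mul_self, mul_one]
    rw [n4] at n3
    have h9 : Nat.card (Option {e : E // e ≠ r}) = Nat.card E :=
      Nat.card_congr (Equiv.optionSubtypeNe r)
    rw [Finite.card_option] at h9
    rw [← Nat.card_eq_fintype_card]
    unfold nc at *
    omega

end PX

end GB
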