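import Pool.Agent.Helper95.GB.PX.Real
import Pool.Agent.Helper95.GB.PX.GrL

/-! # GB/PX/RootZ: root edge which is not a leaf (stub, prove in place)

No vertex of degree one: `r` from `nonbridge`, `β = true`, `Z = Unit`.  `kap r true : XX {e // e ≠ r} (Option Unit) → Dart E` is a bijection `κ`;
let `σ' = κ⁻¹ σ κ` (`(Equiv.ofBijective κ _).permCongr`-type conjugation).  `SameCycle σ' x y ↔ SameCycle σ (κ x) (κ y)`.
`nc σ' = nc σ` and `nc (σ' * al univ * swap (inr none) (inr (some ()))) = nc (σ * oppPerm E)`, because `κ` conjugates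
`al univ * swap _ _` to `oppPerm E` (pointwise).  A bijection conjugating two permutations induces a bijection of `Cyc`.
`Conn2 σ'`: for `S` take the image under `κ`, `nonbridge`.  `Pl σ'`: `nc σ = Nat.card V` (`card_V`), Euler's formula, `|{e // e ≠ r}| = |E| - 1`;
`Unit` is not empty.  Then `rz_of`.
-/

set_option autoImplicit false

namespace GB

namespace PX

theorem rootz_zpow {X Y : Type} (κ : X ≃ Y) (σ : Equiv.Perm Y) (n : ℤ) (x : X) :
    ((κ.symm.permCongr σ) ^ n) x = κ.symm ((σ ^ n) (κ x)) := by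
  have h : (κ.symm.permCongr σ) = κ.symm.permCongrHom σ := rfl
  rw [h, ← map_zpow]
  rfl

theorem rootz_same {X Y : Type} (κ : X ≃ Y) (σ : Equiv.Perm Y) (x y : X) :
    (κ.symm.permCongr σ).SameCycle x y ↔ σ.SameCycle (κ x) (κ y) := by
  constructor
  · rintro ⟨n, hn⟩
    refine ⟨n, ?_⟩
    rw [rootz_zpow] at hn
    rw [← hn, Equiv.apply_symm_apply]
  · rintro ⟨n, hn⟩
    refine ⟨n, ?_⟩
    rw [rootz_zpow, hn, Equiv.symm_apply_apply]

theorem rootz_nc {X Y : Type} (κ : X ≃ Y) (σ : Equiv.Perm Y) :
    nc (κ.symm.permCongr σ) = nc σ := by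
  unfold nc
  refine Nat.card_congr (Quotient.congr κ ?_)
  intro a b
  exact rootz_same κ σ a b

theorem rootz_bij {E : Type} [DecidableEq E] (r : E) :
    Function.Bijective (kap (Z := Unit) r true) := by
  constructor
  · rintro (⟨⟨e, he⟩, b⟩ | (_ | _)) (⟨⟨e', he'⟩, b'⟩ | (_ | _)) h
    · simp only [kap, Prod.mk.injEq] at h
      obtain ⟨rfl, rfl⟩ := h
      rfl
    · simp only [kap, Prod.mk.injEq] at h
      exact absurd h.1 he
    · simp only [kap, Prod.mk.injEq] at h
      exact absurd h.1 he
    · simp only [kap, Prod.mk.injEq] at h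
      exact absurd h.1.symm he'
    · rfl
    · simp [kap] at h
    · simp only [kap, Prod.mk.injEq] at h
      exact absurd h.1.symm he'
    · simp [kap] at h
    · rfl
  · rintro ⟨e, b⟩
    by_cases he : e = r
    · subst he
      cases b
      · exact ⟨.inr (some ()), rfl⟩
      · exact ⟨.inr none, rfl⟩
    · exact ⟨.inl (⟨e, he⟩, b), rfl⟩

theorem root_z {V E : Type} [Fintype E] [DecidableEq E] {G : Gr V E}
    {σ : Equiv.Perm (Dart E)} (hc : G.Connected) (hE : Nonempty E)
    (hσ : ∀ d d', G.vt d = G.vt d' ↔ σ.SameCycle d d')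
    (hEu : Nat.card V + Nat.card (Gr.Cyc (σ * oppPerm E)) = Nat.card E + 2)
    (hdeg : ∀ d, ∃ d', G.vt d' = G.vt d ∧ d' ≠ d) :
    ∃ (W C : Type) (_ : Fintype W) (_ : Fintype C) (P : PD W C Unit), P.Ax ∧
      Nonempty (Rz G P.dg) := by
  obtain ⟨r, hr⟩ := nonbridge hc hE hσ hdeg
  set κ : XX {e : E // e ≠ r} (Option Unit) ≃ Dart E := Equiv.ofBijective _ (rootz_bij r) with hκ
  have hκa : ∀ x, κ x = kap r true x := fun x => rfl
  have hsurj : ∀ v, ∃ d, G.vt d = v := vt_surj hc hE
  have hV : Nat.card V = nc σ := card_V hσ hsurj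
  refine rz_of G r true (fun _ _ => rfl) (κ.symm.permCongr σ) ?_ ?_ hsurj ?_ ?_
  · intro x y
    rw [rootz_same, ← hσ]
    rfl
  · intro h
    exact absurd h (by simp)
  · -- connectedness
    intro S hne h1 h2
    have hS : κ '' S = Set.univ := by
      refine hr _ (hne.image κ) ?_ ?_
      · intro d
        have h3 := h1 (κ.symm d)
        have h4 : (κ.symm.permCongr σ) (κ.symm d) = κ.symm (σ d) := by
          change κ.symm (σ (κ (κ.symm d))) = _
          rw [Equiv.apply_symm_apply]
        rw [h4] at h3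
        rw [Equiv.image_eq_preimage_symm]
        exact h3
      · intro e b he hS
        rw [Equiv.image_eq_preimage_symm] at hS ⊢
        have h5 : κ.symm (e, b) = .inl (⟨e, he⟩, b) := by
          rw [Equiv.symm_apply_eq]; rfl
        have h6 : κ.symm (e, !b) = .inl (⟨e, he⟩, !b) := by
          rw [Equiv.symm_apply_eq]; rfl
        change κ.symm (e, !b) ∈ S
        rw [h6]
        refine h2 _ _ ?_
        rw [← h5]
        exact hS
    have h7 : S = κ ⁻¹' (κ '' S) := (Set.preimage_image_eq S κ.injective).symm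
    rw [h7, hS, Set.preimage_univ]
  · -- Euler
    refine ⟨?_, fun h => absurd h (by simp)⟩
    rintro ⟨⟩
    have h8 : (κ.symm.permCongr σ) * al Finset.univ *
        Equiv.swap (.inr none) (.inr (some ())) = κ.symm.permCongr (σ * oppPerm E) := by
      apply Equiv.ext
      intro x
      have key : κ ((al Finset.univ : Equiv.Perm (XX {e : E // e ≠ r} (Option Unit)))
          ((Equiv.swap (.inr none) (.inr (some ()))) x)) = opp (κ x) := by
        rcases x with ⟨⟨e, he⟩, b⟩ | (_ | ⟨⟩)
        · rw [Equiv.swap_apply_of_ne_of_ne (by simp) (by simp)]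
          change kap r true (alF Finset.univ (.inl (⟨e, he⟩, b))) = _
          simp only [alF, Finset.mem_univ, if_true]
          rfl
        · rw [Equiv.swap_apply_left]
          rfl
        · rw [Equiv.swap_apply_right]
          rfl
      change κ.symm (σ (κ ((al Finset.univ : Equiv.Perm (XX {e : E // e ≠ r} (Option Unit)))
          ((Equiv.swap (.inr none) (.inr (some ()))) x)))) = κ.symm (σ (opp (κ x)))
      rw [key]
    rw [h8, rootz_nc, rootz_nc]
    have h9 : Nat.card (Option {e : E // e ≠ r}) = Nat.card E :=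
      Nat.card_congr (Equiv.optionSubtypeNe r)
    rw [Finite.card_option] at h9
    rw [← Nat.card_eq_fintype_card]
    unfold nc at *
    omega

end PX

end GB
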