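import Pool.Agent.Helper95.GB.Iface

/-! # GB/PX: definitions for the existence of a planar depth first search structure -/

set_option autoImplicit false

namespace GB

namespace PX

/-- number of cycles of a permutation (fixed points included) -/
noncomputable def nc {X : Type} (π : Equiv.Perm X) : ℕ := Nat.card (Gr.Cyc π)

/-- half-edges: two for each edge, and some extra ones -/
abbrev XX (E R : Type) : Type := (E × Bool) ⊕ R

variable {E R : Type} [DecidableEq E]

/-- flip the edges in `A` -/
def alF (A : Finset E) : XX E R → XX E R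
  | .inl (e, b) => if e ∈ A then .inl (e, !b) else .inl (e, b)
  | .inr ρ => .inr ρ

theorem alF_alF (A : Finset E) (x : XX E R) : alF A (alF A x) = x := by
  rcases x with ⟨e, b⟩ | ρ
  · by_cases h : e ∈ A <;> simp [alF, h]
  · rfl

/-- flip the edges in `A`, as a permutation -/
def al (A : Finset E) : Equiv.Perm (XX E R) where
  toFun := alF A
  invFun := alF A
  left_inv := alF_alF A
  right_inv := alF_alF A

/-- `A` is a forest -/
def Forest (σ : Equiv.Perm (XX E R)) (A : Finset E) : Prop := nc (σ * al A) + A.card = nc σ

/-- `T` is a spanning tree -/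
def Tree (σ : Equiv.Perm (XX E R)) (T : Finset E) : Prop :=
  nc (σ * al T) = 1 ∧ T.card + 1 = nc σ

/-- connectedness -/
def Conn2 (σ : Equiv.Perm (XX E R)) : Prop := ∀ S : Set (XX E R), S.Nonempty →
  (∀ x, σ x ∈ S ↔ x ∈ S) → (∀ e b, (.inl (e, b) : XX E R) ∈ S → (.inl (e, !b) : XX E R) ∈ S) →
    S = Set.univ

/-- Euler's formula -/
def Pl [Fintype E] {Z : Type} [DecidableEq Z] (σ : Equiv.Perm (XX E (Option Z))) : Prop :=
  (∀ k : Z, nc σ + nc (σ * al Finset.univ * Equiv.swap (.inr none) (.inr (some k))) =
    Fintype.card E + 3) ∧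
  (IsEmpty Z → nc σ + nc (σ * al Finset.univ) = Fintype.card E + 2)

/-- positions along a cyclic permutation, with `b` at the last position -/
structure PosOf {X : Type} (π : Equiv.Perm X) (b : X) (pos : X → ℕ) : Prop where
  inj : Function.Injective pos
  one_le : ∀ x, 1 ≤ pos x
  le : ∀ x, pos x ≤ pos b
  succ : ∀ x, x ≠ b → pos (π x) = pos x + 1
  wrap : pos (π b) = 1

/-- the half-edge of `e` with the smaller position -/
def early (pos : XX E R → ℕ) (e : E) : XX E R :=
  if pos (.inl (e, true)) < pos (.inl (e, false)) then .inl (e, true) else .inl (e, false)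

/-- the half-edge of `e` with the larger position -/
def late (pos : XX E R → ℕ) (e : E) : XX E R :=
  if pos (.inl (e, true)) < pos (.inl (e, false)) then .inl (e, false) else .inl (e, true)

/-- base half-edges -/
def bs {Z : Type} (T : Finset E) (pos : XX E (Option Z) → ℕ) :
    Option {e : E // e ∈ T} → XX E (Option Z)
  | none => .inr none
  | some a => late pos a.1

/-- the depth first search property -/
def DF {Z : Type} (σ : Equiv.Perm (XX E (Option Z))) (T : Finset E)
    (pos : XX E (Option Z) → ℕ) : Prop :=
  ∀ e, e ∉ T → ∀ u ∈ T, σ.SameCycle (late pos e) (late pos u) →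
    pos (early pos u) < pos (early pos e)

end PX

end GB
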