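import Pool.Agent.Helper95.GB.PX.Nc

/-! # GB/PX/Forest: forests and spanning trees (stub, prove in place)

* `al_insert`: pointwise; `al_empty`.
* `F1`: induction on `A` (`Finset.induction_on`), `σ * al (insert e A) = (σ * al A) * swap _ _`, `nc_le`.
* `F2`: write `A = insert e B`, `B = A.erase e`.  `F1` for `B`: `nc σ ≤ nc (σ * al B) + |B|`, and
`nc (σ * al B) ≤ nc (σ * al A) + 1` (`nc_le`), `nc (σ * al A) + |B| + 1 = nc σ`: so `nc (σ * al B) + |B| = nc σ` (`Forest B`) and
`nc (σ * al B) = nc (σ * al A) + 1`.  If the half-edges of `e` were in the same cycle of `σ * al B`, `split_le` would give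
`nc (σ * al B) ≤ nc (σ * al A)`, contradiction.  `merge_same` gives the last claim.
* `F3`: induction on `A`, `F2`, `merge_rel`.
* `exists_tree`: let `A` be a forest with the maximal number of elements (`∅` is a forest).  If all elements are in one
cycle of `σ * al A`: `nc_one_iff`.  Otherwise there is an `e` whose half-edges are in different cycles of `σ * al A`: let `S` be
the cycle of some `x` in `σ * al A`, `S ≠ univ`; `S` is closed under `σ` in both directions by `F3` (`SameCycle σ x (σ x)`); if both
half-edges of every `e` were in the same cycle, then `S` would be closed under flips and `Conn2` gives `S = univ`.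
`e ∉ A` by `F2`; `merge_nc` shows that `insert e A` is a forest, contradiction.
-/

set_option autoImplicit false

namespace GB

namespace PX

variable {E R : Type} [DecidableEq E] [Finite E] [Finite R] [DecidableEq R]

theorem al_empty : (al (∅ : Finset E) : Equiv.Perm (XX E R)) = 1 := by
  apply Equiv.ext
  rintro (⟨e, b⟩ | ρ)
  · change alF (R := R) ∅ (.inl (e, b)) = .inl (e, b)
    simp [alF]
  · rfl

theorem al_insert {A : Finset E} {e : E} (he : e ∉ A) :
    (al (insert e A) : Equiv.Perm (XX E R)) =
      al A * Equiv.swap (.inl (e, true)) (.inl (e, false)) := by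
  apply Equiv.ext
  rintro (⟨e', b⟩ | ρ)
  · change alF (R := R) (insert e A) (.inl (e', b)) =
      alF A (Equiv.swap (.inl (e, true)) (.inl (e, false)) (.inl (e', b)))
    by_cases hee : e' = e
    · subst hee
      cases b
      · rw [Equiv.swap_apply_right]
        simp [alF, he]
      · rw [Equiv.swap_apply_left]
        simp [alF, he]
    · rw [Equiv.swap_apply_of_ne_of_ne]
      · by_cases hA : e' ∈ A
        · simp [alF, hA]
        · simp [alF, hA, hee]
      · intro h
        simp at h
        exact hee h.1
      · intro h
        simp at h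
        exact hee h.1
  · change alF (insert e A) (.inr ρ) =
      alF A (Equiv.swap (.inl (e, true)) (.inl (e, false)) (.inr ρ))
    rw [Equiv.swap_apply_of_ne_of_ne (by simp) (by simp)]
    rfl

theorem F1 (σ : Equiv.Perm (XX E R)) (A : Finset E) : nc σ ≤ nc (σ * al A) + A.card := by
  induction A using Finset.induction_on with
  | empty => rw [al_empty, mul_one]; exact Nat.le_add_right _ _
  | insert e A he ih =>
    rw [al_insert he, ← mul_assoc, Finset.card_insert_of_notMem he]
    have h1 := nc_le (σ * al A) (.inl (e, true)) (.inl (e, false))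
    omega

theorem F2 {σ : Equiv.Perm (XX E R)} {A : Finset E} (hA : Forest σ A) {e : E} (he : e ∈ A) :
    Forest σ (A.erase e) ∧
    ¬ (σ * al (A.erase e)).SameCycle (.inl (e, true)) (.inl (e, false)) ∧
    (σ * al A).SameCycle (.inl (e, true)) (.inl (e, false)) := by
  have h0 : (σ * al A : Equiv.Perm (XX E R)) =
      (σ * al (A.erase e)) * Equiv.swap (.inl (e, true)) (.inl (e, false)) := by
    conv_lhs => rw [← Finset.insert_erase he, al_insert (Finset.notMem_erase e A)]
    rw [mul_assoc]
  have hcard : (A.erase e).card + 1 = A.card := Finset.card_erase_add_one he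
  have h1 := F1 σ (A.erase e)
  have h2 := nc_le (σ * al (A.erase e)) (.inl (e, true)) (.inl (e, false))
  rw [← h0] at h2
  unfold Forest at hA ⊢
  have h3 : ¬ (σ * al (A.erase e)).SameCycle (.inl (e, true)) (.inl (e, false)) := by
    intro hs
    have h4 := split_le hs
    rw [← h0] at h4
    omega
  refine ⟨by omega, h3, ?_⟩
  rw [h0]
  exact merge_same h3

theorem F3 {σ : Equiv.Perm (XX E R)} {A : Finset E} (hA : Forest σ A) {u w : XX E R}
    (h : σ.SameCycle u w) : (σ * al A).SameCycle u w := by
  induction A using Finset.induction_on with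
  | empty => rwa [al_empty, mul_one]
  | insert e A he ih =>
    obtain ⟨h1, h2, -⟩ := F2 hA (Finset.mem_insert_self e A)
    rw [Finset.erase_insert he] at h1 h2
    rw [al_insert he, ← mul_assoc]
    exact merge_rel h2 (ih h1)

theorem exists_tree [Nonempty (XX E R)] {σ : Equiv.Perm (XX E R)} (hσ : Conn2 σ) :
    ∃ T : Finset E, Tree σ T := by
  classical
  obtain ⟨A, hA, hmax⟩ := Set.exists_max_image {A : Finset E | Forest σ A} Finset.card
    (Set.toFinite _) ⟨∅, by
      change nc (σ * al ∅) + (∅ : Finset E).card = nc σ
      rw [al_empty, mul_one, Finset.card_empty, add_zero]⟩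
  have hA' : nc (σ * al A) + A.card = nc σ := hA
  have hone : nc (σ * al A) = 1 := by
    by_contra hne
    have hex : ∃ e : E, ¬ (σ * al A).SameCycle (.inl (e, true)) (.inl (e, false)) := by
      by_contra hcon
      push Not at hcon
      apply hne
      rw [nc_one_iff]
      intro x
      have hS := hσ {y | (σ * al A).SameCycle x y}
        ⟨x, (Equiv.Perm.SameCycle.refl (σ * al A) x : (σ * al A).SameCycle x x)⟩ (by
        intro y
        have h1 : (σ * al A).SameCycle y (σ y) := F3 hA ⟨1, by simp⟩
        exact ⟨fun h => Equiv.Perm.SameCycle.trans h h1.symm,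
          fun h => Equiv.Perm.SameCycle.trans h h1⟩) (by
        intro e b hb
        have h1 := hcon e
        cases b
        · exact Equiv.Perm.SameCycle.trans hb h1.symm
        · exact Equiv.Perm.SameCycle.trans hb h1)
      intro y
      have : y ∈ {y | (σ * al A).SameCycle x y} := by rw [hS]; trivial
      exact this
    obtain ⟨e, he⟩ := hex
    have heA : e ∉ A := fun h => he (F2 hA h).2.2
    have h1 := merge_nc he
    have h2 : Forest σ (insert e A) := by
      change nc (σ * al (insert e A)) + (insert e A).card = nc σ
      rw [al_insert heA, ← mul_assoc, Finset.card_insert_of_notMem heA]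
      omega
    have h3 := hmax (insert e A) h2
    rw [Finset.card_insert_of_notMem heA] at h3
    omega
  exact ⟨A, hone, by omega⟩

end PX

end GB
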