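import Pool.Agent.Helper95.GB.PX.TreePos

/-! # GB/PX/Lex: a spanning tree with the depth first search property (proved)

For a tree `T` let `τ_T = σ * al T`, `b = inr none`, `N = Nat.card (XX E (Option Z))`, and
`wt T = ∑ j ∈ range (N+1), if (τ_T ^ j) b is a half-edge of an edge in T (and 1 ≤ j) then 2 ^ (N - j) else 0`.
Take a tree `T` (`exists_tree`) with maximal `wt` (finitely many `T`), and `pos` by `exists_pos` (`nc_one_iff`).  Claim: `DF`.
Suppose `e ∉ T`, `u ∈ T`, `SameCycle σ (late e) (late u)` and `¬ pos (early u) < pos (early e)`.  Let `x = early e`, `y = late e`.  By `V0`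
`pos (early u) < pos y ≤ pos (late u)`.  So `pos x < pos (early u) < pos y < pos (late u)` (`inj`, `e ≠ u`).
Let `B = T.erase u`, `T' = insert e B`.  `σ * al B = τ_T * swap (early u) (late u)`; by `PosOf.interval` `x` and `y` are in different cycles of it
(`y` is in the interval of `u`, `x` is not).  `nc (σ * al B) = 2` (`F2`), `merge_nc` (with `al_insert` and `swap_comm`, `early_or`) gives
`nc (σ * al T') = 1`; `|T'| = |T|`; so `T'` is a tree.
Let `k = pos x`.  `τ_T` and `τ_{T'}` differ only at `x, y, early u, late u` (`alF`), all of which have position `≥ k` (and are `≠ b`).  So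
by induction `(τ_{T'} ^ j) b = (τ_T ^ j) b` for `j ≤ k` (for `j < k` the element `(τ_T ^ j) b` is `b` or has position `j < k`, `PosOf.pow`).
For `1 ≤ j < k` the element `(τ_T ^ j) b` is not a half-edge of `e` or `u`, so it is in `T` iff in `T'`.  For `j = k` it is `x`
(`PosOf.eq_pow`), a half-edge of `e ∈ T'`, `e ∉ T`.  So `wt T' ≥ (common part) + 2 ^ (N - k) > wt T` since the terms `j > k` of `wt T` sum up to
at most `∑_{j = k+1}^{N} 2 ^ (N - j) = 2 ^ (N - k) - 1`.  (`k ≤ N`: `pos` is injective with values in `[1, pos b]` and `(τ^j b)` for `1 ≤ j ≤ pos b`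
are different, so `pos b ≤ N`.)  Contradiction to the maximality.
(Instead of `wt` any other form of the lexicographic order may be used.)
-/

set_option autoImplicit false

namespace GB

namespace PX

variable {E Z : Type} [DecidableEq E] [Fintype E] [Finite Z] [DecidableEq Z]

omit [DecidableEq E] [Fintype E] [Finite Z] [DecidableEq Z] in
private theorem tail_sum {N k : ℕ} (m : ℕ) (h1 : k ≤ m) (h2 : m ≤ N) :
    ∑ j ∈ Finset.Ico (k + 1) (m + 1), 2 ^ (N - j) + 2 ^ (N - m) = 2 ^ (N - k) := by
  induction m, h1 using Nat.le_induction with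
  | base => simp
  | succ m hm ih =>
    have h3 := ih (by omega)
    rw [Finset.sum_Ico_succ_top (by omega)]
    have h4 : 2 ^ (N - m) = 2 ^ (N - (m + 1)) + 2 ^ (N - (m + 1)) := by
      have h5 : N - m = N - (m + 1) + 1 := by omega
      rw [h5, pow_succ]
      ring
    omega

omit [DecidableEq E] [Fintype E] [Finite Z] [DecidableEq Z] in
private theorem sum_lt' {a a' : ℕ → ℕ} {N k : ℕ} (hk : k ≤ N) (h1 : ∀ j < k, a j = a' j)
    (h2 : a k = 0) (h3 : a' k = 2 ^ (N - k)) (h4 : ∀ j, a j ≤ 2 ^ (N - j)) :
    ∑ j ∈ Finset.range (N + 1), a j < ∑ j ∈ Finset.range (N + 1), a' j := by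
  have e : ∀ f : ℕ → ℕ, ∑ j ∈ Finset.range (N + 1), f j =
      ∑ j ∈ Finset.range k, f j + f k + ∑ j ∈ Finset.Ico (k + 1) (N + 1), f j := by
    intro f
    rw [← Finset.sum_range_succ, Finset.sum_range_add_sum_Ico _ (by omega)]
  rw [e a, e a', Finset.sum_congr rfl (fun j hj => h1 j (Finset.mem_range.1 hj)), h2, h3]
  have h5 : ∑ j ∈ Finset.Ico (k + 1) (N + 1), a j ≤
      ∑ j ∈ Finset.Ico (k + 1) (N + 1), 2 ^ (N - j) := Finset.sum_le_sum (fun j _ => h4 j)
  have h6 := tail_sum (N := N) (k := k) N hk le_rfl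
  have h7 : 0 < 2 ^ (N - N) := by positivity
  have h8 : ∑ j ∈ Finset.Ico (k + 1) (N + 1), a j < 2 ^ (N - k) := by
    rw [← h6]
    exact lt_of_le_of_lt h5 (Nat.lt_add_of_pos_right h7)
  rw [add_zero, add_assoc]
  exact Nat.add_lt_add_left (lt_of_lt_of_le h8 (Nat.le_add_right _ _)) _

/-- the element at position `j` is a half-edge of an edge in `T` -/
private def Hit (σ : Equiv.Perm (XX E (Option Z))) (T : Finset E) (j : ℕ) : Prop :=
  1 ≤ j ∧ ∃ e ∈ T, ∃ b, ((σ * al T : Equiv.Perm (XX E (Option Z))) ^ j) (.inr none) = .inl (e, b)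

open Classical in
private noncomputable def trm (σ : Equiv.Perm (XX E (Option Z))) (N : ℕ) (T : Finset E)
    (j : ℕ) : ℕ := if Hit σ T j then 2 ^ (N - j) else 0

private noncomputable def wt (σ : Equiv.Perm (XX E (Option Z))) (N : ℕ) (T : Finset E) : ℕ :=
  ∑ j ∈ Finset.range (N + 1), trm σ N T j

omit [Fintype E] [Finite Z] [DecidableEq Z] in
private theorem wt_lt {σ : Equiv.Perm (XX E (Option Z))} {N k : ℕ} {T T' : Finset E}
    (hk : k ≤ N) (h1 : ∀ j < k, Hit σ T j ↔ Hit σ T' j) (h2 : ¬ Hit σ T k)
    (h3 : Hit σ T' k) : wt σ N T < wt σ N T' := by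
  classical
  unfold wt
  refine sum_lt' hk (fun j hj => ?_) ?_ ?_ (fun j => ?_)
  · unfold trm
    exact if_congr (h1 j hj) rfl rfl
  · unfold trm
    rw [if_neg h2]
  · unfold trm
    rw [if_pos h3]
  · unfold trm
    split_ifs
    · exact le_rfl
    · exact Nat.zero_le _

theorem exists_df {σ : Equiv.Perm (XX E (Option Z))} (hσ : Conn2 σ) :
    ∃ (T : Finset E) (pos : XX E (Option Z) → ℕ), Tree σ T ∧
      PosOf (σ * al T) (.inr none) pos ∧ DF σ T pos := by
  classical
  have : Nonempty (XX E (Option Z)) := ⟨.inr none⟩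
  set N := Nat.card (XX E (Option Z)) with hN
  obtain ⟨T0, hT0⟩ := exists_tree hσ
  obtain ⟨T, hT, hmax⟩ := Finset.exists_max_image
    (Finset.univ.filter (fun T : Finset E => Tree σ T)) (wt σ N)
    ⟨T0, Finset.mem_filter.2 ⟨Finset.mem_univ _, hT0⟩⟩
  have hT : Tree σ T := (Finset.mem_filter.1 hT).2
  have hmax : ∀ T' : Finset E, Tree σ T' → wt σ N T' ≤ wt σ N T := fun T' h =>
    hmax T' (Finset.mem_filter.2 ⟨Finset.mem_univ _, h⟩)
  obtain ⟨pos, hp⟩ := exists_pos (σ * al T) (.inr none) ((nc_one_iff _).1 hT.1)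
  refine ⟨T, pos, hT, hp, ?_⟩
  intro e he u hu hc
  by_contra hlt
  have hne : e ≠ u := fun h => he (h ▸ hu)
  obtain ⟨be, hbe1, hbe2⟩ := early_or pos e
  obtain ⟨bu, hbu1, hbu2⟩ := early_or pos u
  obtain ⟨h1, h2⟩ := V0 hT hp hu hc
  have h3 := early_lt hp.inj e
  have h4 := early_lt hp.inj u
  have h5 : pos (early pos e) ≠ pos (early pos u) := by
    intro h
    have h' := hp.inj h
    rw [hbe1, hbu1] at h'
    exact hne (Prod.mk.inj (Sum.inl.inj h')).1
  have h6 : pos (late pos e) ≠ pos (late pos u) := by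
    intro h
    have h' := hp.inj h
    rw [hbe2, hbu2] at h'
    exact hne (Prod.mk.inj (Sum.inl.inj h')).1
  have h7 : pos (early pos e) < pos (early pos u) := by omega
  have h8 : pos (late pos e) < pos (late pos u) := by omega
  -- every half-edge of `e` or `u` has position at least `pos (early e)`
  have hpe : ∀ b, pos (early pos e) ≤ pos (.inl (e, b)) := by
    intro b
    by_cases hb : b = be
    · rw [hb, ← hbe1]
    · have : b = !be := by revert hb; cases b <;> cases be <;> simp
      rw [this, ← hbe2]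
      exact h3.le
  have hpu : ∀ b, pos (early pos e) < pos (.inl (u, b)) := by
    intro b
    by_cases hb : b = bu
    · rw [hb, ← hbu1]
      exact h7
    · have : b = !bu := by revert hb; cases b <;> cases bu <;> simp
      rw [this, ← hbu2]
      omega
  have hsw : ∀ (f : E) (b : Bool), (Equiv.swap (.inl (f, b)) (.inl (f, !b)) :
      Equiv.Perm (XX E (Option Z))) = Equiv.swap (.inl (f, true)) (.inl (f, false)) := by
    intro f b
    cases b
    · exact Equiv.swap_comm _ _
    · rfl
  have hfor : Forest σ T := by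
    unfold Forest
    have := hT.1
    have := hT.2
    omega
  obtain ⟨hB, -, -⟩ := F2 hfor hu
  have huB : u ∉ T.erase u := Finset.notMem_erase u T
  have heB : e ∉ T.erase u := fun h => he (Finset.mem_of_mem_erase h)
  have hTB : σ * al (T.erase u) =
      σ * al T * Equiv.swap (early pos u) (late pos u) := by
    have h9 := al_insert (R := Option Z) huB
    rw [Finset.insert_erase hu] at h9
    rw [h9, hbu1, hbu2, hsw, mul_assoc, mul_assoc, Equiv.swap_mul_self, mul_one]
  have hnot : ¬ (σ * al (T.erase u)).SameCycle (early pos e) (late pos e) := by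
    intro h
    rw [hTB] at h
    have h9 := (hp.interval h4 h).2 ⟨h1, h2⟩
    omega
  have hT'e : σ * al (insert e (T.erase u)) =
      σ * al (T.erase u) * Equiv.swap (early pos e) (late pos e) := by
    rw [al_insert heB, hbe1, hbe2, hsw, mul_assoc]
  have hcard : (T.erase u).card + 1 = T.card := Finset.card_erase_add_one hu
  have hT' : Tree σ (insert e (T.erase u)) := by
    have h9 := merge_nc hnot
    rw [← hT'e] at h9
    have h10 := hT.2
    have h11 : nc (σ * al (T.erase u)) + (T.erase u).card = nc σ := hB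
    refine ⟨by omega, ?_⟩
    rw [Finset.card_insert_of_notMem heB]
    omega
  -- comparison of the weights
  have hmem : ∀ f, f ≠ e → f ≠ u → (f ∈ insert e (T.erase u) ↔ f ∈ T) := by
    intro f hf1 hf2
    rw [Finset.mem_insert, Finset.mem_erase]
    tauto
  have hstep : ∀ z : XX E (Option Z), (∀ b, z ≠ .inl (e, b)) → (∀ b, z ≠ .inl (u, b)) →
      (σ * al (insert e (T.erase u)) : Equiv.Perm (XX E (Option Z))) z =
        (σ * al T : Equiv.Perm (XX E (Option Z))) z := by
    intro z hz1 hz2
    rw [Equiv.Perm.mul_apply, Equiv.Perm.mul_apply]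
    congr 1
    rcases z with ⟨f, b⟩ | ρ
    · have hf1 : f ≠ e := fun h => hz1 b (by rw [h])
      have hf2 : f ≠ u := fun h => hz2 b (by rw [h])
      show alF (insert e (T.erase u)) (.inl (f, b) : XX E (Option Z)) = alF T (.inl (f, b))
      simp only [alF, hmem f hf1 hf2]
    · rfl
  have hpb : ∀ x, pos x ≤ pos (.inr none) := hp.le
  have hnz : ∀ j, j < pos (early pos e) →
      (∀ b, ((σ * al T : Equiv.Perm (XX E (Option Z))) ^ j) (.inr none) ≠ .inl (e, b)) ∧
      (∀ b, ((σ * al T : Equiv.Perm (XX E (Option Z))) ^ j) (.inr none) ≠ .inl (u, b)) := by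
    intro j hj
    rcases Nat.eq_zero_or_pos j with hj0 | hj0
    · subst hj0
      rw [pow_zero]
      exact ⟨fun b h => by simp at h, fun b h => by simp at h⟩
    · have h9 := hp.pow hj0 (by have := hpb (early pos e); omega)
      refine ⟨fun b h => ?_, fun b h => ?_⟩
      · rw [h] at h9
        have := hpe b
        omega
      · rw [h] at h9
        have := hpu b
        omega
  have hpow : ∀ j, j ≤ pos (early pos e) →
      ((σ * al (insert e (T.erase u)) : Equiv.Perm (XX E (Option Z))) ^ j) (.inr none) =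
        ((σ * al T : Equiv.Perm (XX E (Option Z))) ^ j) (.inr none) := by
    intro j
    induction j with
    | zero => intro _; rfl
    | succ j ih =>
      intro hj
      have e1 : ((σ * al (insert e (T.erase u)) : Equiv.Perm (XX E (Option Z))) ^ (j + 1))
          (.inr none) = (σ * al (insert e (T.erase u)) : Equiv.Perm (XX E (Option Z)))
            (((σ * al (insert e (T.erase u)) : Equiv.Perm (XX E (Option Z))) ^ j) (.inr none)) := by
        rw [pow_succ']
        rfl
      have e2 : ((σ * al T : Equiv.Perm (XX E (Option Z))) ^ (j + 1)) (.inr none) =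
          (σ * al T : Equiv.Perm (XX E (Option Z)))
            (((σ * al T : Equiv.Perm (XX E (Option Z))) ^ j) (.inr none)) := by
        rw [pow_succ']
        rfl
      rw [e1, e2, ih (by omega)]
      exact hstep _ (hnz j (by omega)).1 (hnz j (by omega)).2
  have hkN : pos (early pos e) ≤ N := by
    have h9 : pos (.inr none : XX E (Option Z)) ≤ N := by
      have hinj : Function.Injective (fun i : Fin (pos (.inr none : XX E (Option Z))) =>
          ((σ * al T : Equiv.Perm (XX E (Option Z))) ^ ((i : ℕ) + 1)) (.inr none)) := by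
        intro i j hij
        have h10 := congrArg pos hij
        simp only at h10
        rw [hp.pow (by omega) (by omega), hp.pow (by omega) (by omega)] at h10
        exact Fin.ext (by omega)
      have h11 := Nat.card_le_card_of_injective _ hinj
      rwa [Nat.card_eq_fintype_card, Fintype.card_fin] at h11
    have := hpb (early pos e)
    omega
  have hlt' : wt σ N T < wt σ N (insert e (T.erase u)) := by
    refine wt_lt hkN (fun j hj => ?_) ?_ ?_
    · unfold Hit
      rw [hpow j hj.le]
      obtain ⟨hn1, hn2⟩ := hnz j hj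
      constructor
      · rintro ⟨hj1, f, hf, b, hb⟩
        refine ⟨hj1, f, (hmem f ?_ ?_).2 hf, b, hb⟩
        · rintro rfl
          exact hn1 b hb
        · rintro rfl
          exact hn2 b hb
      · rintro ⟨hj1, f, hf, b, hb⟩
        refine ⟨hj1, f, (hmem f ?_ ?_).1 hf, b, hb⟩
        · rintro rfl
          exact hn1 b hb
        · rintro rfl
          exact hn2 b hb
    · rintro ⟨-, f, hf, b, hb⟩
      rw [hp.eq_pow, hbe1] at hb
      have h9 := (Prod.mk.inj (Sum.inl.inj hb)).1
      rw [← h9] at hf
      exact he hf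
    · refine ⟨hp.one_le _, e, Finset.mem_insert_self _ _, be, ?_⟩
      rw [hpow _ le_rfl, hp.eq_pow, hbe1]
  exact absurd (hmax _ hT') (by omega)

end PX

end GB
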