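import Pool.Agent.Helper95.GB.PX.Lex

/-! # GB/PX/Mk: the planar depth first search structure

`T`, `pos` by `exists_df`.  `vert x` is the unique `v` with `SameCycle σ x (bs T pos v)` (`V1`).  Define `P`:
`par a = vert (early a)`, `mv c = vert (early c)`, `pv c = vert (late c)`, `zv k = vert (inr (some k))`, `lo none = 0`,
`lo (some a) = pos (early a)`, `hi v = pos (bs v)`, `pm c = pos (early c)`, `pp c = pos (late c)`, `pz k = pos (inr (some k))`.
`dart (inl j)`: `t a ↦ early a`, `m c ↦ early c`, `p c ↦ late c`, `z k ↦ inr (some k)`; `dart (inr v) = bs v`.  It is bijective (each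
`inl (e, b)` is `early e` or `late e`, `e ∈ T` or `e ∉ T`).  `P.pos j = pos (dart (inl j))`, `P.vt j = vert (dart (inl j))`, `vert (bs v) = v`.
(1) for every `x`: `P.lo (vert x) < pos x` and `pos x ≤ P.hi (vert x)` (`V0`; for `vert x = none`: `one_le`, `le`), with
equality only for `x = bs (vert x)` (`inj`).
(2) for every `v`, `x` with `lo v < pos x`, `pos x ≤ hi v`: `lo v ≤ lo (vert x)` and `hi (vert x) ≤ hi v` (`V4`; for `v = none`: `le`).
Axioms: `a0`: `early_lt`, `one_le`.  `a1`: (1), `dart (inl j) ≠ bs v`.  `a2`: `V3`.  `a3`: (2).  `a4`: `inj`.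
`a5`: `lo (pv c) < pos (late c)`; `lo (pv c) < pm c`: for `pv c = none` it is `0 < pm c`, for `pv c = some u` it is `DF`; `pm c < pp c ≤ hi (pv c)`; so (2) applies
to `v = pv c`, `x = early c`.  `a6`: `CC` for `e = c`, `e' = c'` (`≠` since `pm c < pm c'`).  `a7`: `CZ`.  `a8`: `inj`, bijectivity.
`zz` is given.
-/

set_option autoImplicit false

namespace GB

namespace PX

variable {E Z : Type} [DecidableEq E] [Fintype E] [DecidableEq Z]

/-- the darts of the planar structure -/
def mkDart (T : Finset E) (pos : XX E (Option Z) → ℕ) :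
    JJ {e : E // e ∈ T} {e : E // e ∉ T} Z ⊕ Option {e : E // e ∈ T} → XX E (Option Z)
  | .inl (.t a) => early pos a.1
  | .inl (.m c) => early pos c.1
  | .inl (.p c) => late pos c.1
  | .inl (.z k) => .inr (some k)
  | .inr v => bs T pos v

/-- the lower positions -/
def mkLo (T : Finset E) (pos : XX E (Option Z) → ℕ) : Option {e : E // e ∈ T} → ℕ
  | none => 0
  | some a => pos (early pos a.1)

/-- the planar structure -/
def mkPD (T : Finset E) (pos : XX E (Option Z) → ℕ)
    (vert : XX E (Option Z) → Option {e : E // e ∈ T}) :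
    PD {e : E // e ∈ T} {e : E // e ∉ T} Z where
  par a := vert (early pos a.1)
  mv c := vert (early pos c.1)
  pv c := vert (late pos c.1)
  zv k := vert (.inr (some k))
  lo := mkLo T pos
  hi v := pos (bs T pos v)
  pm c := pos (early pos c.1)
  pp c := pos (late pos c.1)
  pz k := pos (.inr (some k))

theorem mkDart_bijective [Finite Z] (T : Finset E) (pos : XX E (Option Z) → ℕ) :
    Function.Bijective (mkDart T pos) := by
  classical
  choose β hβ using fun e : E => early_or (Z := Z) pos e
  let g : XX E (Option Z) →
      JJ {e : E // e ∈ T} {e : E // e ∉ T} Z ⊕ Option {e : E // e ∈ T} := fun x =>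
    match x with
    | .inl (e, b) => if h : e ∈ T then
        (if b = β e then .inl (.t ⟨e, h⟩) else .inr (some ⟨e, h⟩))
        else (if b = β e then .inl (.m ⟨e, h⟩) else .inl (.p ⟨e, h⟩))
    | .inr none => .inr none
    | .inr (some k) => .inl (.z k)
  have hne : ∀ b : Bool, (!b) ≠ b := by decide
  refine Function.bijective_iff_has_inverse.2 ⟨g, ?_, ?_⟩
  · rintro ((a | c | c | k) | (_ | a))
    · change g (early pos a.1) = _
      rw [(hβ a.1).1]
      simp only [g, dif_pos a.2, if_true]
    · change g (early pos c.1) = _
      rw [(hβ c.1).1]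
      simp only [g, dif_neg c.2, if_true]
    · change g (late pos c.1) = _
      rw [(hβ c.1).2]
      simp only [g, dif_neg c.2, if_neg (hne _)]
    · rfl
    · rfl
    · change g (late pos a.1) = _
      rw [(hβ a.1).2]
      simp only [g, dif_pos a.2, if_neg (hne _)]
  · rintro (⟨e, b⟩ | (_ | k))
    · by_cases h : e ∈ T <;> by_cases hb : b = β e
      · simp only [g, dif_pos h, if_pos hb]
        change early pos e = _
        rw [(hβ e).1, hb]
      · simp only [g, dif_pos h, if_neg hb]
        change late pos e = _
        rw [(hβ e).2]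
        have : b = !(β e) := by
          revert hb
          cases b <;> cases β e <;> simp
        rw [this]
      · simp only [g, dif_neg h, if_pos hb]
        change early pos e = _
        rw [(hβ e).1, hb]
      · simp only [g, dif_neg h, if_neg hb]
        change late pos e = _
        rw [(hβ e).2]
        have : b = !(β e) := by
          revert hb
          cases b <;> cases β e <;> simp
        rw [this]
    · rfl
    · rfl

theorem exists_pd (hZ : ∀ k k' : Z, k = k') {σ : Equiv.Perm (XX E (Option Z))}
    (hσ : Conn2 σ) (hP : Pl σ) :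
    ∃ (T : Finset E) (P : PD {e : E // e ∈ T} {e : E // e ∉ T} Z)
      (dart : JJ {e : E // e ∈ T} {e : E // e ∉ T} Z ⊕ Option {e : E // e ∈ T} →
        XX E (Option Z)), P.Ax ∧ Function.Bijective dart ∧
      (∀ d d', σ.SameCycle (dart d) (dart d') ↔ P.dg.dv d = P.dg.dv d') ∧
      (∀ a, ∃ b, dart (.inl (.t a)) = .inl (a.1, b) ∧ dart (.inr (some a)) = .inl (a.1, !b)) ∧
      (∀ c, ∃ b, dart (.inl (.m c)) = .inl (c.1, b) ∧ dart (.inl (.p c)) = .inl (c.1, !b)) ∧
      (∀ k, dart (.inl (.z k)) = .inr (some k)) ∧ dart (.inr none) = .inr none := by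
  have : Subsingleton Z := ⟨hZ⟩
  have : Finite Z := Finite.of_subsingleton
  obtain ⟨T, pos, hT, hp, hDF⟩ := exists_df hσ
  have hbij := mkDart_bijective T pos
  choose vert hvert using fun x => (V1 hT hp x).exists
  have huniq : ∀ x v, σ.SameCycle x (bs T pos v) → vert x = v := fun x v h =>
    (V1 hT hp x).unique (hvert x) h
  have hbs : ∀ v, vert (bs T pos v) = v := fun v => huniq _ _ (Equiv.Perm.SameCycle.refl _ _)
  have hsame : ∀ x y, σ.SameCycle x y ↔ vert x = vert y := by
    intro x y
    constructor
    · intro h
      exact huniq _ _ (h.trans (hvert y))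
    · intro h
      have h1 := hvert x
      rw [h] at h1
      exact h1.trans (hvert y).symm
  -- the structure
  set P := mkPD T pos vert with hPdef
  have hpos : ∀ j, P.pos j = pos (mkDart T pos (.inl j)) := by
    rintro (a | c | c | k) <;> rfl
  have hvt : ∀ j, P.vt j = vert (mkDart T pos (.inl j)) := by
    rintro (a | c | c | k) <;> rfl
  have hhi : ∀ v, P.hi v = pos (mkDart T pos (.inr v)) := fun v => rfl
  have hne : ∀ j v, P.pos j ≠ P.hi v := by
    intro j v h
    rw [hpos, hhi] at h
    have := hbij.1 (hp.inj h)
    cases this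
  have h1a : ∀ x, P.lo (vert x) < pos x := by
    intro x
    have hx := hvert x
    rcases hv : vert x with _ | a
    · exact hp.one_le x
    · rw [hv] at hx
      exact (V0 hT hp a.2 hx).1
  have h1b : ∀ x, pos x ≤ P.hi (vert x) := by
    intro x
    have hx := hvert x
    rcases hv : vert x with _ | a
    · exact hp.le x
    · rw [hv] at hx
      exact (V0 hT hp a.2 hx).2
  have h2 : ∀ v x, P.lo v < pos x → pos x ≤ P.hi v →
      P.lo v ≤ P.lo (vert x) ∧ P.hi (vert x) ≤ P.hi v := by
    intro v x hl hh
    rcases v with _ | a
    · exact ⟨Nat.zero_le _, hp.le _⟩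
    · obtain ⟨u, hu, hu1, hu2⟩ := V4 hT hp a.2 hl hh (hvert x)
      rw [hu]
      exact ⟨hu1, hu2⟩
  refine ⟨T, P, mkDart T pos, ?_, hbij, ?_, fun a => early_or pos a.1,
    fun c => early_or pos c.1, fun k => rfl, rfl⟩
  · exact
      { zz := hZ
        a0 := by
          rintro (_ | a)
          · exact hp.one_le _
          · exact early_lt hp.inj a.1
        a1 := by
          intro j
          rw [hvt, hpos]
          refine ⟨h1a _, lt_of_le_of_ne (h1b _) ?_⟩
          rw [← hpos]
          exact hne j _
        a2 := by
          intro a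
          exact V3 hT hp a.2 (hvert (early pos a.1))
        a3 := by
          intro v j hl hh
          rw [hvt]
          rw [hpos] at hl hh
          exact h2 v _ hl hh.le
        a4 := by
          intro j j' h
          rw [hpos, hpos] at h
          exact Sum.inl_injective (hbij.1 (hp.inj h))
        a5 := by
          intro c
          have hlt := early_lt hp.inj c.1
          have hlo : P.lo (vert (late pos c.1)) < pos (early pos c.1) := by
            have hx := hvert (late pos c.1)
            rcases hv : vert (late pos c.1) with _ | u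
            · exact hp.one_le _
            · rw [hv] at hx
              exact hDF c.1 c.2 u.1 u.2 hx
          have h3 := h2 (vert (late pos c.1)) (early pos c.1) hlo
            (hlt.le.trans (h1b (late pos c.1)))
          exact ⟨h3.1, h3.2, hlt⟩
        a6 := by
          intro c c' h3 h4
          have hcc : c.1 ≠ c'.1 := by
            intro h
            have : c = c' := Subtype.ext h
            rw [this] at h3
            exact lt_irrefl _ h3
          have h5 := ((CC hP hT hp c.2 c'.2 hcc).1 ⟨h3, le_of_lt h4⟩).2
          refine lt_of_le_of_ne h5 fun h6 => hcc ?_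
          have h7 := hbij.1 (a₁ := .inl (.p c')) (a₂ := .inl (.p c)) (hp.inj h6)
          cases h7
          rfl
        a7 := by
          rintro c k ⟨h3, h4⟩
          exact CZ hP hT hp c.2 k ⟨h3, le_of_lt h4⟩
        a8 := fun v j => hne j v }
  · intro d d'
    have hdv : ∀ d, P.dg.dv d = vert (mkDart T pos d) := by
      rintro (j | v)
      · exact hvt j
      · exact (hbs v).symm
    rw [hdv, hdv]
    exact hsame _ _

end PX

end GB
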