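import Pool.Agent.Helper95.GB.PX.Defs

/-! # GB/PX/Nc: number of cycles and transpositions (stub, prove in place)

`X` finite, `π' = π * swap x y` (`π' u = π (swap x y u)`).

* `split_le`: if `SameCycle π x y` then `π' u = π (swap x y u)` is in the `π`-cycle of `swap x y u`, which is the `π`-cycle of `u`.
So `SameCycle π' u w → SameCycle π u w` (induction over the powers), hence a surjection `Cyc π' → Cyc π`.
* `merge`: let `x`, `y` be in different `π`-cycles.  First `SameCycle π' x y`: let `m ≥ 1` be minimal with `π^m y = y`.  For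
`1 ≤ j < m` the element `π^j y` is not `y` and not `x` (different cycle), so `π' (π^j y) = π^(j+1) y`; and `π' x = π y`.  By
induction `π'^j x = π^j y` for `1 ≤ j ≤ m`; so `π'^m x = y`.  Then `SameCycle π' u (π u)` for all `u`: for `u ≠ x, y`: `π' u = π u`.
For `u = x`: `π x = π' y`, `y ~ x`.  For `u = y`: `π y = π' x`.  So `SameCycle π u w → SameCycle π' u w` (by
`π`-powers: induction on integer powers, or on `ℕ` powers using finiteness: `Equiv.Perm.SameCycle.exists_pow_eq''`).
Count: the map `Cyc π → Cyc π'` is surjective; it identifies the classes of `x` and `y`, and nothing else: if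
`SameCycle π' u w` then `w` is reached from `u` by steps `v ↦ π' v = π (swap v)`, each step stays in the `π`-cycle or changes from the
class of `x` to the class of `y` or conversely; so `Cyc π'` is the quotient of `Cyc π` by one identification:
`Nat.card (Cyc π') + 1 = Nat.card (Cyc π)`.  (E.g. the map `{c : Cyc π // c ≠ [y]} → Cyc π'` is a bijection.)
* `nc_le`: `nc π ≤ nc π' + 1`: by `merge` if the cycles are different, by `split_le` otherwise (`x = y` included).
-/

set_option autoImplicit false

namespace GB

namespace PX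

variable {X : Type} [Finite X] [DecidableEq X]

omit [DecidableEq X] in
theorem same_of_steps {σ : Equiv.Perm X} {R : X → X → Prop} (hr : ∀ u, R u u)
    (ht : ∀ u v w, R u v → R v w → R u w) (hs : ∀ u, R u (σ u)) {u w : X}
    (h : σ.SameCycle u w) : R u w := by
  obtain ⟨i, hi⟩ := h.exists_nat_pow_eq
  subst hi
  induction i with
  | zero => exact hr _
  | succ i ih =>
    have h1 : (σ ^ (i + 1)) u = σ ((σ ^ i) u) := by
      rw [pow_succ', Equiv.Perm.mul_apply]
    rw [h1]
    exact ht _ _ _ (ih ⟨i, by simp⟩) (hs _)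

theorem split_rel {π : Equiv.Perm X} {x y : X} (h : π.SameCycle x y) {u w : X}
    (hu : (π * Equiv.swap x y).SameCycle u w) : π.SameCycle u w := by
  refine same_of_steps (R := π.SameCycle) (fun u => Equiv.Perm.SameCycle.refl _ _)
    (fun _ _ _ h1 h2 => h1.trans h2) (fun u => ?_) hu
  rw [Equiv.Perm.mul_apply, Equiv.Perm.sameCycle_apply_right]
  by_cases hx : u = x
  · subst hx
    rw [Equiv.swap_apply_left]
    exact h
  · by_cases hy : u = y
    · subst hy
      rw [Equiv.swap_apply_right]
      exact h.symm
    · rw [Equiv.swap_apply_of_ne_of_ne hx hy]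

omit [DecidableEq X] in
theorem cyc_finite (π : Equiv.Perm X) : Finite (Gr.Cyc π) := by
  unfold Gr.Cyc
  infer_instance

theorem split_le {π : Equiv.Perm X} {x y : X} (h : π.SameCycle x y) :
    nc π ≤ nc (π * Equiv.swap x y) := by
  have := cyc_finite π
  have := cyc_finite (π * Equiv.swap x y)
  let f : Gr.Cyc (π * Equiv.swap x y) → Gr.Cyc π :=
    Quotient.map' id (fun u w hu => split_rel h hu)
  have hf : Function.Surjective f := by
    intro c
    induction c using Quotient.inductionOn' with
    | h u => exact ⟨Quotient.mk'' u, rfl⟩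
  exact Nat.card_le_card_of_surjective f hf

theorem merge_same {π : Equiv.Perm X} {x y : X} (h : ¬ π.SameCycle x y) :
    (π * Equiv.swap x y).SameCycle x y := by
  by_contra hc
  set σ := π * Equiv.swap x y with hσ
  have key : ∀ j : ℕ, π.SameCycle y ((σ ^ (j + 1)) x) := by
    intro j
    induction j with
    | zero =>
      rw [zero_add, pow_one, hσ, Equiv.Perm.mul_apply, Equiv.swap_apply_left,
        Equiv.Perm.sameCycle_apply_right]
    | succ j ih =>
      have h1 : (σ ^ (j + 1 + 1)) x = σ ((σ ^ (j + 1)) x) := by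
        rw [pow_succ' _ (j + 1), Equiv.Perm.mul_apply]
      rw [h1]
      have hx : (σ ^ (j + 1)) x ≠ x := by
        intro h2
        rw [h2] at ih
        exact h ih.symm
      have hy : (σ ^ (j + 1)) x ≠ y := by
        intro h2
        exact hc ⟨(j + 1 : ℕ), by rw [zpow_natCast]; exact h2⟩
      rw [hσ, Equiv.Perm.mul_apply, Equiv.Perm.sameCycle_apply_right,
        Equiv.swap_apply_of_ne_of_ne hx hy]
      exact ih
  have hpos : 0 < orderOf σ := orderOf_pos σ
  obtain ⟨j, hj⟩ := Nat.exists_eq_succ_of_ne_zero hpos.ne'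
  have h3 := key j
  have h4 : σ ^ (j + 1) = 1 := by
    have := pow_orderOf_eq_one σ
    rwa [hj] at this
  rw [h4, Equiv.Perm.one_apply] at h3
  exact h h3.symm

theorem merge_rel {π : Equiv.Perm X} {x y : X} (h : ¬ π.SameCycle x y) {u w : X}
    (hu : π.SameCycle u w) : (π * Equiv.swap x y).SameCycle u w := by
  have hm := merge_same h
  refine same_of_steps (R := (π * Equiv.swap x y).SameCycle)
    (fun u => Equiv.Perm.SameCycle.refl _ _)
    (fun _ _ _ h1 h2 => h1.trans h2) (fun u => ?_) hu
  by_cases hx : u = x
  · subst hx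
    have h1 : π u = (π * Equiv.swap u y) y := by
      rw [Equiv.Perm.mul_apply, Equiv.swap_apply_right]
    rw [h1, Equiv.Perm.sameCycle_apply_right]
    exact hm
  · by_cases hy : u = y
    · subst hy
      have h1 : π u = (π * Equiv.swap x u) x := by
        rw [Equiv.Perm.mul_apply, Equiv.swap_apply_left]
      rw [h1, Equiv.Perm.sameCycle_apply_right]
      exact hm.symm
    · have h1 : π u = (π * Equiv.swap x y) u := by
        rw [Equiv.Perm.mul_apply, Equiv.swap_apply_of_ne_of_ne hx hy]
      rw [h1, Equiv.Perm.sameCycle_apply_right]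

theorem merge_back {π : Equiv.Perm X} {x y : X} {u w : X}
    (hu : (π * Equiv.swap x y).SameCycle u w) : π.SameCycle u w ∨
      ((π.SameCycle x u ∨ π.SameCycle y u) ∧ (π.SameCycle x w ∨ π.SameCycle y w)) := by
  refine same_of_steps (R := fun u w => π.SameCycle u w ∨
      ((π.SameCycle x u ∨ π.SameCycle y u) ∧ (π.SameCycle x w ∨ π.SameCycle y w)))
    (fun u => Or.inl (Equiv.Perm.SameCycle.refl _ _)) ?_ (fun u => ?_) hu
  · rintro a b c (h1 | ⟨h1, h2⟩) (h3 | ⟨h3, h4⟩)
    · exact Or.inl (h1.trans h3)
    · refine Or.inr ⟨?_, h4⟩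
      rcases h3 with h3 | h3
      · exact Or.inl (h3.trans h1.symm)
      · exact Or.inr (h3.trans h1.symm)
    · refine Or.inr ⟨h1, ?_⟩
      rcases h2 with h2 | h2
      · exact Or.inl (h2.trans h3)
      · exact Or.inr (h2.trans h3)
    · exact Or.inr ⟨h1, h4⟩
  · by_cases hx : u = x
    · subst hx
      refine Or.inr ⟨Or.inl (Equiv.Perm.SameCycle.refl _ _), Or.inr ?_⟩
      rw [Equiv.Perm.mul_apply, Equiv.swap_apply_left, Equiv.Perm.sameCycle_apply_right]
    · by_cases hy : u = y
      · subst hy
        refine Or.inr ⟨Or.inr (Equiv.Perm.SameCycle.refl _ _), Or.inl ?_⟩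
        rw [Equiv.Perm.mul_apply, Equiv.swap_apply_right, Equiv.Perm.sameCycle_apply_right]
      · refine Or.inl ?_
        rw [Equiv.Perm.mul_apply, Equiv.swap_apply_of_ne_of_ne hx hy,
          Equiv.Perm.sameCycle_apply_right]

theorem merge_nc {π : Equiv.Perm X} {x y : X} (h : ¬ π.SameCycle x y) :
    nc (π * Equiv.swap x y) + 1 = nc π := by
  classical
  have := cyc_finite π
  have := cyc_finite (π * Equiv.swap x y)
  let a : Gr.Cyc π := Quotient.mk'' y
  let f : Gr.Cyc π → Gr.Cyc (π * Equiv.swap x y) :=
    Quotient.map' id (fun u w hu => merge_rel h hu)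
  let g : {c : Gr.Cyc π // c ≠ a} → Gr.Cyc (π * Equiv.swap x y) := fun c => f c.1
  have hinj : Function.Injective g := by
    rintro ⟨c, hc⟩ ⟨d, hd⟩ hcd
    induction c using Quotient.inductionOn' with
    | h u =>
      induction d using Quotient.inductionOn' with
      | h w =>
        have h1 : (π * Equiv.swap x y).SameCycle u w := Quotient.exact' hcd
        have hu : ¬ π.SameCycle y u := fun h2 => hc (Quotient.sound' h2.symm)
        have hw : ¬ π.SameCycle y w := fun h2 => hd (Quotient.sound' h2.symm)
        have h3 : π.SameCycle u w := by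
          rcases merge_back h1 with h2 | ⟨h2 | h2, h3 | h3⟩
          · exact h2
          · exact h2.symm.trans h3
          · exact absurd h3 hw
          · exact absurd h2 hu
          · exact absurd h2 hu
        exact Subtype.ext (Quotient.sound' h3)
  have hsurj : Function.Surjective g := by
    intro c
    induction c using Quotient.inductionOn' with
    | h u =>
      by_cases hu : π.SameCycle y u
      · refine ⟨⟨Quotient.mk'' x, fun h2 => h (Quotient.exact' h2)⟩, ?_⟩
        exact Quotient.sound' ((merge_same h).trans (merge_rel h hu))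
      · exact ⟨⟨Quotient.mk'' u, fun h2 => hu (Quotient.exact' h2).symm⟩, rfl⟩
  have h1 : Nat.card {c : Gr.Cyc π // c ≠ a} = Nat.card (Gr.Cyc (π * Equiv.swap x y)) :=
    Nat.card_congr (Equiv.ofBijective g ⟨hinj, hsurj⟩)
  have h2 : Nat.card (Option {c : Gr.Cyc π // c ≠ a}) = Nat.card (Gr.Cyc π) :=
    Nat.card_congr (Equiv.optionSubtypeNe a)
  rw [Finite.card_option, h1] at h2
  exact h2

theorem nc_le (π : Equiv.Perm X) (x y : X) : nc π ≤ nc (π * Equiv.swap x y) + 1 := by
  by_cases h : π.SameCycle x y
  · have := split_le h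
    omega
  · exact (merge_nc h).ge

/-- the same with the roles of the two permutations exchanged -/
theorem nc_le' (π : Equiv.Perm X) (x y : X) : nc (π * Equiv.swap x y) ≤ nc π + 1 := by
  have h := nc_le (π * Equiv.swap x y) x y
  rwa [mul_assoc, Equiv.swap_mul_self, mul_one] at h

theorem nc_one_iff [Nonempty X] (π : Equiv.Perm X) :
    nc π = 1 ↔ ∀ x y, π.SameCycle x y := by
  unfold nc
  rw [Nat.card_eq_one_iff_unique]
  constructor
  · rintro ⟨h1, _⟩ x y
    exact Quotient.exact' (h1.elim (Quotient.mk'' x) (Quotient.mk'' y))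
  · intro h
    refine ⟨⟨fun c d => ?_⟩, ⟨Quotient.mk'' (Classical.arbitrary X)⟩⟩
    induction c using Quotient.inductionOn' with
    | h u =>
      induction d using Quotient.inductionOn' with
      | h w => exact Quotient.sound' (h u w)

end PX

end GB
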