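import Pool.Agent.Helper95.GB.PX.Forest

/-! # GB/PX/Plan: consequences of Euler's formula (stub, prove in place)

* `up`: for `A ⊆ B`: `nc (σ * al B) ≤ nc (σ * al A) + (B.card - A.card)`, by induction (`al_insert`, `nc_le'`).
* `plan`: let `T` be a tree, `T ⊆ A`.  `nc (σ * al A) ≤ 1 + (|A| - |T|)` by `up`.  Conversely, if `Z` is empty:
`|E| + 2 - nc σ = nc (σ * al univ) ≤ nc (σ * al A) + (|E| - |A|)` and `nc σ = |T| + 1`, so `1 + |A| - |T| ≤ nc (σ * al A)`.
If `k : Z`: `|E| + 3 - nc σ = nc (σ * al univ * swap) ≤ nc (σ * al univ) + 1 ≤ nc (σ * al A) + (|E| - |A|) + 1`: the same.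
* `plan_c`: `e, e' ∉ T`, `e ≠ e'`: `nc (σ * al (insert e T)) = 2`, `nc (σ * al (insert e' (insert e T))) = 3`; if the half-edges of
`e'` were in different cycles of `σ * al (insert e T)` then `merge_nc` would give `3 + 1 = 2`.
* `plan_z`: `k : Z`, `e ∉ T`, `A = insert e T`, `s = swap (inr none) (inr (some k))`.  Suppose `inr none`, `inr (some k)` are in different
cycles of `σ * al A`; `merge_nc`: `nc (σ * al A * s) = 1`.  `s` commutes with the flips, so
`σ * al univ * s` arises from `σ * al A * s` by `|E| - |A|` multiplications with swaps (`up` for `σ * s` instead of `σ`: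
`σ * s * al B = σ * al B * s`), so `nc (σ * al univ * s) ≤ 1 + |E| - |A|`; but it is `|E| + 3 - nc σ = |E| + 2 - |T| = |E| + 3 - |A|`.
-/

set_option autoImplicit false

namespace GB

namespace PX

variable {E Z : Type} [DecidableEq E] [Fintype E] [Finite Z]

theorem plan_up {R : Type} [Finite R] [DecidableEq R] (σ : Equiv.Perm (XX E R)) {A B : Finset E}
    (h : A ⊆ B) : nc (σ * al B) + A.card ≤ nc (σ * al A) + B.card := by
  have key : ∀ D : Finset E, Disjoint A D →
      nc (σ * al (A ∪ D)) ≤ nc (σ * al A) + D.card := by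
    intro D
    induction D using Finset.induction_on with
    | empty => intro _; simp
    | insert e D he ih =>
      intro hD
      rw [Finset.disjoint_insert_right] at hD
      have h1 := ih hD.2
      have h2 : e ∉ A ∪ D := by
        rw [Finset.mem_union]
        rintro (h3 | h3)
        · exact hD.1 h3
        · exact he h3
      rw [Finset.union_insert, al_insert h2, ← mul_assoc, Finset.card_insert_of_notMem he]
      have h3 := nc_le' (σ * al (A ∪ D)) (.inl (e, true)) (.inl (e, false))
      omega
  have h1 := key (B \ A) Finset.disjoint_sdiff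
  rw [Finset.union_sdiff_of_subset h] at h1
  have h2 := Finset.card_sdiff_add_card_eq_card h
  omega

theorem plan [DecidableEq Z] {σ : Equiv.Perm (XX E (Option Z))} (hσ : Pl σ) {T : Finset E}
    (hT : Tree σ T) {A : Finset E} (hA : T ⊆ A) : nc (σ * al A) + T.card = 1 + A.card := by
  have h1 := plan_up σ hA
  have h2 := plan_up σ (Finset.subset_univ A)
  obtain ⟨h3, h4⟩ := hT
  have h5 := Finset.card_le_card hA
  rw [Finset.card_univ] at h2
  rcases isEmpty_or_nonempty Z with hZ | ⟨⟨k⟩⟩
  · have h6 := hσ.2 hZ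
    omega
  · have h6 := hσ.1 k
    have h7 := nc_le' (σ * al Finset.univ) (.inr none) (.inr (some k))
    omega

theorem plan_c [DecidableEq Z] {σ : Equiv.Perm (XX E (Option Z))} (hσ : Pl σ) {T : Finset E}
    (hT : Tree σ T) {e e' : E} (he : e ∉ T) (he' : e' ∉ T) (hne : e ≠ e') :
    (σ * al (insert e T)).SameCycle (.inl (e', true)) (.inl (e', false)) := by
  by_contra h
  have h1 := plan hσ hT (Finset.subset_insert e T)
  have h2 := plan hσ hT ((Finset.subset_insert e T).trans (Finset.subset_insert e' (insert e T)))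
  have h3 : e' ∉ insert e T := by
    rw [Finset.mem_insert]
    rintro (h4 | h4)
    · exact hne h4.symm
    · exact he' h4
  have h4 := merge_nc h
  rw [al_insert h3, ← mul_assoc, Finset.card_insert_of_notMem h3] at h2
  rw [Finset.card_insert_of_notMem he] at h1 h2
  omega

theorem plan_comm [DecidableEq Z] (B : Finset E) (k : Z) :
    (al B * Equiv.swap (.inr none) (.inr (some k)) : Equiv.Perm (XX E (Option Z))) =
      Equiv.swap (.inr none) (.inr (some k)) * al B := by
  ext x
  rw [Equiv.Perm.mul_apply, Equiv.Perm.mul_apply]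
  rcases x with ⟨e, b⟩ | ρ
  · rw [Equiv.swap_apply_of_ne_of_ne (by simp) (by simp)]
    have h1 : ∃ b', (al B (.inl (e, b)) : XX E (Option Z)) = .inl (e, b') := by
      change ∃ b', (if e ∈ B then (.inl (e, !b) : XX E (Option Z)) else .inl (e, b)) =
        .inl (e, b')
      split_ifs
      · exact ⟨_, rfl⟩
      · exact ⟨_, rfl⟩
    obtain ⟨b', hb'⟩ := h1
    rw [hb', Equiv.swap_apply_of_ne_of_ne (by simp) (by simp)]
  · have h1 : ∀ ρ' : Option Z, (al B (.inr ρ') : XX E (Option Z)) = .inr ρ' := fun _ => rfl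
    rw [h1, Equiv.swap_apply_def]
    split_ifs
    · rw [h1]
    · rw [h1]
    · rw [h1]

theorem plan_z [DecidableEq Z] {σ : Equiv.Perm (XX E (Option Z))} (hσ : Pl σ) {T : Finset E}
    (hT : Tree σ T) {e : E} (he : e ∉ T) (k : Z) :
    (σ * al (insert e T)).SameCycle (.inr none) (.inr (some k)) := by
  by_contra h
  have h1 := plan hσ hT (Finset.subset_insert e T)
  have h2 := merge_nc h
  have h3 := hσ.1 k
  have h4 := plan_up (σ * Equiv.swap (.inr none) (.inr (some k))) (Finset.subset_univ (insert e T))
  rw [mul_assoc, ← plan_comm, ← mul_assoc, mul_assoc σ _ (al (insert e T)), ← plan_comm,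
    ← mul_assoc, Finset.card_univ] at h4
  have h5 := Finset.card_le_univ (insert e T)
  rw [Finset.card_insert_of_notMem he] at h1 h4 h5
  have h6 := hT.2
  omega

end PX

end GB
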