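import Pool.Agent.Helper95.GB.PX.Defs

/-! # GB/PX/Pos: positions along a cyclic permutation (stub, prove in place)

* `exists_pos`: `pos x` = the least `m ≥ 1` with `(π ^ m) b = x` (it exists: `Equiv.Perm.SameCycle.exists_pow_eq`-type lemmas for
finite types give `m > 0`).  `inj`: `x = (π ^ pos x) b`.  `pos b = N` is the order of the cycle of `b`: the least `m ≥ 1` with `π^m b = b`; every
`x` is `π^m b` for some `1 ≤ m ≤ N` (reduce `m` by `N`), so `pos x ≤ N`.  `succ`: let `x ≠ b`, `m = pos x < N`.
`π^(m+1) b = π x`; if `π^j b = π x` with `1 ≤ j ≤ m` then `π^(j-1) b = x`; `j = 1` gives `x = b`, otherwise `j - 1 ≥ 1` is smaller than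
`m`, contradiction.  `wrap`: `π^1 b = π b`.
* `pos_pow`: induction on `j`: `pos (π^j b) = j` for `1 ≤ j ≤ pos b`: `wrap` for `j = 1`; if `pos (π^j b) = j < pos b` then
`π^j b ≠ b`, use `succ`.
* `interval`: with `π' = π * swap x y`, `I = {u | pos x < pos u ∧ pos u ≤ pos y}`: `π' u ∈ I ↔ u ∈ I` for all `u`:
`u = x`: `π' x = π y` has position `pos y + 1` (or `1` if `y = b`), not in `I`, `x ∉ I`.  `u = y`: `π' y = π x`, `x ≠ b`
(`pos x < pos y ≤ pos b`), position `pos x + 1 ≤ pos y`: in `I`.  `u ≠ x, y`: `π' u = π u`; `u = b`: `b ∉ I` (`pos b ≤ pos y` gives `b = y`) and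
position `1` is not `> pos x`; `u ≠ b`: position `pos u + 1`; if `u ∈ I` then `pos u < pos y`, so `π u ∈ I`; if `pos u < pos x` then
`pos u + 1 ≤ pos x`; if `pos u > pos y` then not in `I`.  Then for powers (`Equiv.Perm.SameCycle` is an integer power:
induction for natural powers and their inverses, or use that the set `I` is invariant under `π'` and `π'⁻¹`).
-/

set_option autoImplicit false

namespace GB

namespace PX

variable {X : Type}

theorem exists_pos [Finite X] (π : Equiv.Perm X) (b : X) (h : ∀ x y, π.SameCycle x y) :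
    ∃ pos : X → ℕ, PosOf π b pos := by
  classical
  have hex : ∀ x, ∃ m, 1 ≤ m ∧ (π ^ m) b = x := by
    intro x
    obtain ⟨i, hi, -, h2⟩ := (h b x).exists_pow_eq''
    exact ⟨i, hi, h2⟩
  set pos : X → ℕ := fun x => Nat.find (hex x) with hpos
  have hs : ∀ x, 1 ≤ pos x ∧ (π ^ (pos x)) b = x := fun x => Nat.find_spec (hex x)
  have hm : ∀ x m, 1 ≤ m → (π ^ m) b = x → pos x ≤ m := fun x m h1 h2 =>
    Nat.find_min' (hex x) ⟨h1, h2⟩
  refine ⟨pos, ?_, fun x => (hs x).1, ?_, ?_, ?_⟩
  · intro x y hxy
    rw [← (hs x).2, ← (hs y).2, hxy]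
  · intro x
    by_contra hc
    push Not at hc
    have h1 := (hs b).1
    have h2 := (hs b).2
    have h3 := (hs x).2
    have h4 : (π ^ (pos x - pos b)) b = x := by
      have h5 : pos x = (pos x - pos b) + pos b := by omega
      rw [h5, pow_add, Equiv.Perm.mul_apply, h2] at h3
      exact h3
    have h6 := hm x (pos x - pos b) (by omega) h4
    omega
  · intro x hx
    have h1 : (π ^ (pos x + 1)) b = π x := by
      rw [pow_succ', Equiv.Perm.mul_apply, (hs x).2]
    have h2 := hm (π x) (pos x + 1) (by omega) h1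
    by_contra hc
    have h3 := hs (π x)
    obtain ⟨j, hj⟩ : ∃ j, pos (π x) = j + 1 := ⟨pos (π x) - 1, by omega⟩
    have h4 := h3.2
    rw [hj, pow_succ', Equiv.Perm.mul_apply] at h4
    have h5 := π.injective h4
    rcases j with _ | j
    · exact hx h5.symm
    · have h6 := hm x (j + 1) (by omega) h5
      omega
  · have h1 := hm (π b) 1 le_rfl (by rw [pow_one])
    have h2 := (hs (π b)).1
    omega

theorem PosOf.pow {π : Equiv.Perm X} {b : X} {pos : X → ℕ} (h : PosOf π b pos) {j : ℕ}
    (h1 : 1 ≤ j) (h2 : j ≤ pos b) : pos ((π ^ j) b) = j := by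
  induction j with
  | zero => omega
  | succ j ih =>
    rcases Nat.eq_zero_or_pos j with rfl | hj
    · rw [zero_add, pow_one]
      exact h.wrap
    · have h3 := ih hj (by omega)
      rw [pow_succ', Equiv.Perm.mul_apply, h.succ _ ?_, h3]
      intro h4
      rw [h4] at h3
      omega

/-- the element at position `pos x` -/
theorem PosOf.eq_pow {π : Equiv.Perm X} {b : X} {pos : X → ℕ} (h : PosOf π b pos) (x : X) :
    (π ^ (pos x)) b = x := by
  exact h.inj (h.pow (h.one_le x) (h.le x))

private theorem interval_step [DecidableEq X] {π : Equiv.Perm X} {b : X} {pos : X → ℕ}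
    (h : PosOf π b pos) {x y : X} (hxy : pos x < pos y) (u : X) :
    (pos x < pos ((π * Equiv.swap x y) u) ∧ pos ((π * Equiv.swap x y) u) ≤ pos y) ↔
      (pos x < pos u ∧ pos u ≤ pos y) := by
  have h1 := h.one_le x
  have h2 := h.le y
  rw [Equiv.Perm.mul_apply]
  by_cases hux : u = x
  · subst hux
    rw [Equiv.swap_apply_left]
    by_cases hyb : y = b
    · subst hyb
      rw [h.wrap]
      omega
    · rw [h.succ y hyb]
      omega
  · by_cases huy : u = y
    · subst huy
      rw [Equiv.swap_apply_right, h.succ x (by rintro rfl; omega)]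
      omega
    · rw [Equiv.swap_apply_of_ne_of_ne hux huy]
      by_cases hub : u = b
      · subst hub
        rw [h.wrap]
        have h3 : pos u ≠ pos y := fun h4 => huy (h.inj h4)
        omega
      · rw [h.succ u hub]
        have h3 : pos u ≠ pos y := fun h4 => huy (h.inj h4)
        have h4 : pos u ≠ pos x := fun h4 => hux (h.inj h4)
        omega

theorem PosOf.interval [DecidableEq X] {π : Equiv.Perm X} {b : X} {pos : X → ℕ}
    (h : PosOf π b pos) {x y : X} (hxy : pos x < pos y) {u w : X}
    (hu : (π * Equiv.swap x y).SameCycle u w) :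
    (pos x < pos u ∧ pos u ≤ pos y) ↔ (pos x < pos w ∧ pos w ≤ pos y) := by
  have key : ∀ i : ℤ, ∀ u : X, (pos x < pos (((π * Equiv.swap x y) ^ i) u) ∧
      pos (((π * Equiv.swap x y) ^ i) u) ≤ pos y) ↔ (pos x < pos u ∧ pos u ≤ pos y) := by
    intro i
    induction i using Int.induction_on with
    | zero =>
      intro u
      rw [zpow_zero, Equiv.Perm.one_apply]
    | succ i ih =>
      intro u
      rw [zpow_add_one, Equiv.Perm.mul_apply, ih]
      exact interval_step h hxy u
    | pred i ih =>
      intro u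
      rw [zpow_sub_one, Equiv.Perm.mul_apply, ih]
      have h1 := interval_step h hxy ((π * Equiv.swap x y)⁻¹ u)
      rw [← Equiv.Perm.mul_apply, mul_inv_cancel, Equiv.Perm.one_apply] at h1
      exact h1.symm
  obtain ⟨i, hi⟩ := hu
  have h1 := key i u
  rw [hi] at h1
  exact h1.symm

end PX

end GB
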