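import Pool.Agent.Helper95.GB.PX.Mk
import Pool.Agent.Helper95.GB.RD.Defs

/-! # GB/PX/Real: realisation in a graph 

`exists_pd` for `σ'` on `XX {e // e ≠ r} (Option Z)` gives `T, P, dart`.  `W = {e // e ∈ T}`, `C = {e // e ∉ T}` (`Fintype` by
`Fintype.ofFinite` or directly).  `bD v = kap r β (dart (.inr v))`, `jD j = kap r β (dart (.inl j))`, `iv v = G.vt (bD v)`,
`ie`: `EE.r ↦ r`, `EE.t a ↦ a.1.1`, `EE.c c ↦ c.1.1` (bijective: `Equiv.ofBijective`).
`kap` is injective (`hZ`), its image is everything if `Z` is not empty, and everything except `(r, !β)` if `Z` is empty.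
`iv_inj`: `hσ` and `SameCycle (dart d) (dart d') ↔ dv d = dv d'`.  `jD_vt`: `dv (.inl j) = P.vt j = dv (.inr (P.vt j))`.  `bD_ed`, `jD_ed`: by cases from
the last four properties of `exists_pd` (`be none = r`, `be (some a) = t a`).  `inj`: `dart` and `kap` are injective.  `cov`: `dart` is surjective; for
`(r, !β)` with `Z` empty use `hZ'`.
-/

set_option autoImplicit false

namespace GB

namespace PX

/-- the half-edges of the graph: the root edge `r` has its base half-edge `(r, β)` -/
def kap {E Z : Type} (r : E) (β : Bool) : XX {e : E // e ≠ r} (Option Z) → Dart E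
  | .inl (e, b) => (e.1, b)
  | .inr none => (r, β)
  | .inr (some _) => (r, !β)

theorem kap_injective {E Z : Type} (r : E) (β : Bool) (hZ : ∀ k k' : Z, k = k') :
    Function.Injective (kap (Z := Z) r β) := by
  have hne : ∀ b : Bool, (!b) ≠ b := by decide
  rintro (⟨e, b⟩ | (_ | k)) (⟨e', b'⟩ | (_ | k')) h
  · have h' : ((e.1, b) : Dart E) = (e'.1, b') := h
    rw [Prod.mk.injEq] at h'
    rw [Subtype.ext h'.1, h'.2]
  · have h' : ((e.1, b) : Dart E) = (r, β) := h
    rw [Prod.mk.injEq] at h'
    exact absurd h'.1 e.2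
  · have h' : ((e.1, b) : Dart E) = (r, !β) := h
    rw [Prod.mk.injEq] at h'
    exact absurd h'.1 e.2
  · have h' : ((r, β) : Dart E) = (e'.1, b') := h
    rw [Prod.mk.injEq] at h'
    exact absurd h'.1.symm e'.2
  · rfl
  · have h' : ((r, β) : Dart E) = (r, !β) := h
    rw [Prod.mk.injEq] at h'
    exact absurd h'.2.symm (hne β)
  · have h' : ((r, !β) : Dart E) = (e'.1, b') := h
    rw [Prod.mk.injEq] at h'
    exact absurd h'.1.symm e'.2
  · have h' : ((r, !β) : Dart E) = (r, β) := h
    rw [Prod.mk.injEq] at h'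
    exact absurd h'.2 (hne β)
  · rw [hZ k k']

theorem kap_cov {E Z : Type} (r : E) (β : Bool) (d : Dart E) :
    (∃ x, kap (Z := Z) r β x = d) ∨ (IsEmpty Z ∧ d = (r, !β)) := by
  obtain ⟨e, b⟩ := d
  by_cases he : e = r
  · subst he
    by_cases hb : b = β
    · subst hb
      exact Or.inl ⟨.inr none, rfl⟩
    · have hb' : b = !β := by
        revert hb
        cases b <;> cases β <;> simp
      subst hb'
      rcases isEmpty_or_nonempty Z with hZ | ⟨⟨k⟩⟩
      · exact Or.inr ⟨hZ, rfl⟩
      · exact Or.inl ⟨.inr (some k), rfl⟩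
  · exact Or.inl ⟨.inl (⟨e, he⟩, b), rfl⟩

/-- the edges of the planar structure -/
def edF {E : Type} (r : E) (T : Finset {e : E // e ≠ r}) :
    EE {e : {e : E // e ≠ r} // e ∈ T} {e : {e : E // e ≠ r} // e ∉ T} → E
  | .r => r
  | .t a => a.1.1
  | .c c => c.1.1

theorem edF_bijective {E : Type} [DecidableEq E] (r : E) (T : Finset {e : E // e ≠ r}) :
    Function.Bijective (edF r T) := by
  constructor
  · rintro (_ | a | c) (_ | a' | c') h
    · rfl
    · exact absurd h.symm a'.1.2
    · exact absurd h.symm c'.1.2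
    · exact absurd h a.1.2
    · have : a = a' := Subtype.ext (Subtype.ext h)
      rw [this]
    · have h1 : a.1 = c'.1 := Subtype.ext h
      exact absurd (h1 ▸ a.2) c'.2
    · exact absurd h c.1.2
    · have h1 : c.1 = a'.1 := Subtype.ext h
      exact absurd (h1 ▸ a'.2) c.2
    · have : c = c' := Subtype.ext (Subtype.ext h)
      rw [this]
  · intro e
    by_cases he : e = r
    · exact ⟨.r, he.symm⟩
    · by_cases hT : (⟨e, he⟩ : {e : E // e ≠ r}) ∈ T
      · exact ⟨.t ⟨_, hT⟩, rfl⟩
      · exact ⟨.c ⟨_, hT⟩, rfl⟩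

theorem rz_of {V E Z : Type} [Fintype E] [DecidableEq E] [DecidableEq Z] (G : Gr V E) (r : E)
    (β : Bool) (hZ : ∀ k k' : Z, k = k')
    (σ' : Equiv.Perm (XX {e : E // e ≠ r} (Option Z)))
    (hσ : ∀ x y, σ'.SameCycle x y ↔ G.vt (kap r β x) = G.vt (kap r β y))
    (hZ' : IsEmpty Z → ∀ d', G.vt d' = G.vt (r, !β) → d' = (r, !β))
    (hsurj : ∀ v, ∃ d, G.vt d = v) (hC : Conn2 σ') (hP : Pl σ') :
    ∃ (W C : Type) (_ : Fintype W) (_ : Fintype C) (P : PD W C Z), P.Ax ∧
      Nonempty (Rz G P.dg) := by
  obtain ⟨T, P, dart, hAx, hbij, hsame, htd, hcd, hzd, hnd⟩ := exists_pd hZ hC hP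
  refine ⟨{e : {e : E // e ≠ r} // e ∈ T}, {e : {e : E // e ≠ r} // e ∉ T}, inferInstance,
    inferInstance, P, hAx, ⟨?_⟩⟩
  have hel : ∀ x, Sum.elim (fun j => kap r β (dart (.inl j))) (fun v => kap r β (dart (.inr v))) x =
      kap r β (dart x) := by
    rintro (j | v) <;> rfl
  exact
    { iv := fun v => G.vt (kap r β (dart (.inr v)))
      ie := Equiv.ofBijective (edF r T) (edF_bijective r T)
      bD := fun v => kap r β (dart (.inr v))
      jD := fun j => kap r β (dart (.inl j))
      iv_inj := by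
        intro v v' h
        have h1 := (hsame _ _).1 ((hσ _ _).2 h)
        exact h1
      bD_vt := fun v => rfl
      bD_ed := by
        rintro (_ | a)
        · rw [hnd]
          rfl
        · obtain ⟨b, -, hb⟩ := htd a
          rw [hb]
          rfl
      jD_vt := by
        intro j
        exact (hσ _ _).1 ((hsame (.inl j) (.inr (P.vt j))).2 rfl)
      jD_ed := by
        rintro (a | c | c | k)
        · obtain ⟨b, hb, -⟩ := htd a
          rw [hb]
          rfl
        · obtain ⟨b, hb, -⟩ := hcd c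
          rw [hb]
          rfl
        · obtain ⟨b, -, hb⟩ := hcd c
          rw [hb]
          rfl
        · rw [hzd]
          rfl
      inj := by
        intro x y h
        rw [hel, hel] at h
        exact hbij.1 (kap_injective r β hZ h)
      cov := by
        intro d
        rcases kap_cov (Z := Z) r β d with ⟨x, hx⟩ | ⟨hE, rfl⟩
        · obtain ⟨y, hy⟩ := hbij.2 x
          rcases y with j | v
          · left
            exact ⟨j, by rw [hy, hx]⟩
          · right
            left
            exact ⟨v, by rw [hy, hx]⟩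
        · right
          right
          exact hZ' hE
      surj := hsurj }

end PX

end GB
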