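import Pool.Agent.Helper95.GB.PX.Plan
import Pool.Agent.Helper95.GB.PX.Pos

/-! # GB/PX/TreePos: intervals of a spanning tree (stub, prove in place)

`T` a tree, `τ = σ * al T`, `pos` with `PosOf τ (inr none) pos`.  `early e`, `late e` are the two half-edges of `e`, `pos (early e) < pos (late e)`.
* `el`: for each `e`: `{early, late} = {inl (e,true), inl (e,false)}` and `pos early < pos late` (`inj`); `early_lt`, `early_or`.
* `T1`: let `e ∈ T`, `I = (pos (early e), pos (late e)]`.  `σ * al (T.erase e) = τ * swap (early e) (late e)` (`al_insert`; `swap` is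
symmetric and an involution), `Forest (T.erase e)` (`F2`; a tree is a forest), so `F3` and `PosOf.interval`: if `SameCycle σ u w` then
`u ∈ I ↔ w ∈ I`.
* `T2`: `e ≠ e'` in `T`: by `F2` for the forest `T.erase e` and `e'` the half-edges of `e'` are in one cycle of
`σ * al (T.erase e)`, so `early e' ∈ I ↔ late e' ∈ I`.
* `CC`: `e ≠ e'` not in `T`: `σ * al (insert e T) = τ * swap (early e) (late e)`, `plan_c`.   * `CZ`: `plan_z`: `inr none ∈ I ↔ inr (some k) ∈ I`
for `I` of `e ∉ T`; `inr none ∉ I` (its position is maximal and `late e ≠ inr none`).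
* `V0`: `e ∈ T`, `SameCycle σ x (late e)`: `pos (early e) < pos x ∧ pos x ≤ pos (late e)` (`T1`, `late e ∈ I`).
* `V1`: each `x` is in the `σ`-cycle of `bs T pos v` for exactly one `v`.  Existence: let `m` be the element of the `σ`-cycle of `x` with
the largest position.  If `m = inr none` done.  Otherwise `pos (τ m) = pos m + 1`.  If `al T m = m` then `τ m = σ m` is in the cycle,
contradiction.  So `m` is a half-edge of some `e ∈ T`; let `m'` be the other one.  If `pos m < pos m'` then `τ m' = σ m` is in the
cycle and has position `pos m' + 1` (`m' ≠ inr none`), contradiction.  So `m = late e`.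
Uniqueness: `bs v` has the largest position in its `σ`-cycle (`V0`, or `PosOf.le`), `inj`, and `late` is injective.
* `V3`: `e ∈ T`, `SameCycle σ (early e) (bs v)`: `τ (late e) = σ (early e)` is in the cycle of `bs v`, its position is
`pos (late e) + 1 ≤ pos (bs v)` (`late e ≠ inr none`).
* `V4`: `e ∈ T`, `pos (early e) < pos x ≤ pos (late e)`, `SameCycle σ x (bs v)`: by `T1` `bs v ∈ I`; so `v ≠ none`
(`pos (inr none)` is maximal and `≠ pos (late e)`), `v = some u`; if `u = e` trivial, otherwise `T2`: `early u ∈ I`.
-/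

set_option autoImplicit false

namespace GB

namespace PX

variable {E Z : Type} [DecidableEq E] [Fintype E] [Finite Z] [DecidableEq Z]
  {σ : Equiv.Perm (XX E (Option Z))} {T : Finset E} {pos : XX E (Option Z) → ℕ}

theorem al_apply' (A : Finset E) (x : XX E (Option Z)) : al A x = alF A x := rfl

theorem early_lt (h : Function.Injective pos) (e : E) : pos (early pos e) < pos (late pos e) := by
  unfold early late
  by_cases h1 : pos (.inl (e, true)) < pos (.inl (e, false))
  · rw [if_pos h1, if_pos h1]; exact h1
  · rw [if_neg h1, if_neg h1]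
    refine lt_of_le_of_ne (not_lt.1 h1) (fun h2 => ?_)
    have := h h2
    simp at this

theorem early_or (pos : XX E (Option Z) → ℕ) (e : E) :
    ∃ b, early pos e = .inl (e, b) ∧ late pos e = .inl (e, !b) := by
  unfold early late
  by_cases h1 : pos (.inl (e, true)) < pos (.inl (e, false))
  · rw [if_pos h1, if_pos h1]; exact ⟨true, rfl, rfl⟩
  · rw [if_neg h1, if_neg h1]; exact ⟨false, rfl, rfl⟩

theorem swap_el (pos : XX E (Option Z) → ℕ) (e : E) :
    Equiv.swap (early pos e) (late pos e) =
      (Equiv.swap (.inl (e, true)) (.inl (e, false)) : Equiv.Perm (XX E (Option Z))) := by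
  obtain ⟨b, h1, h2⟩ := early_or pos e
  rw [h1, h2]
  cases b
  · exact Equiv.swap_comm _ _
  · rfl

theorem Tree.forest (hT : Tree σ T) : Forest σ T := by
  have h1 := hT.1
  have h2 := hT.2
  unfold Forest
  omega

theorem key_erase (hp : PosOf (σ * al T) (.inr none) pos) {e : E} (he : e ∈ T)
    {u w : XX E (Option Z)} (hu : (σ * al (T.erase e)).SameCycle u w) :
    (pos (early pos e) < pos u ∧ pos u ≤ pos (late pos e)) ↔
      (pos (early pos e) < pos w ∧ pos w ≤ pos (late pos e)) := by
  have h1 : (al T : Equiv.Perm (XX E (Option Z))) =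
      al (T.erase e) * Equiv.swap (.inl (e, true)) (.inl (e, false)) := by
    rw [← al_insert (Finset.notMem_erase e T), Finset.insert_erase he]
  have h2 : σ * al (T.erase e) = σ * al T * Equiv.swap (early pos e) (late pos e) := by
    rw [swap_el, h1]
    simp only [mul_assoc, Equiv.swap_mul_self, mul_one]
  rw [h2] at hu
  exact hp.interval (early_lt hp.inj e) hu

theorem key_insert (hp : PosOf (σ * al T) (.inr none) pos) {e : E} (he : e ∉ T)
    {u w : XX E (Option Z)} (hu : (σ * al (insert e T)).SameCycle u w) :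
    (pos (early pos e) < pos u ∧ pos u ≤ pos (late pos e)) ↔
      (pos (early pos e) < pos w ∧ pos w ≤ pos (late pos e)) := by
  have h2 : σ * al (insert e T) = σ * al T * Equiv.swap (early pos e) (late pos e) := by
    rw [swap_el, al_insert he, mul_assoc]
  rw [h2] at hu
  exact hp.interval (early_lt hp.inj e) hu

theorem T1 (hT : Tree σ T) (hp : PosOf (σ * al T) (.inr none) pos) {e : E} (he : e ∈ T)
    {u w : XX E (Option Z)} (hu : σ.SameCycle u w) :
    (pos (early pos e) < pos u ∧ pos u ≤ pos (late pos e)) ↔
      (pos (early pos e) < pos w ∧ pos w ≤ pos (late pos e)) :=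
  key_erase hp he (F3 (F2 hT.forest he).1 hu)

theorem el_cases {P : XX E (Option Z) → Prop} (pos : XX E (Option Z) → ℕ) (e : E)
    (h : P (.inl (e, true)) ↔ P (.inl (e, false))) : P (early pos e) ↔ P (late pos e) := by
  obtain ⟨b, h1, h2⟩ := early_or pos e
  rw [h1, h2]
  cases b
  · exact h.symm
  · exact h

theorem T2 (hT : Tree σ T) (hp : PosOf (σ * al T) (.inr none) pos) {e e' : E} (he : e ∈ T)
    (he' : e' ∈ T) (hne : e ≠ e') :
    (pos (early pos e) < pos (early pos e') ∧ pos (early pos e') ≤ pos (late pos e)) ↔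
      (pos (early pos e) < pos (late pos e') ∧ pos (late pos e') ≤ pos (late pos e)) := by
  have h1 := (F2 (F2 hT.forest he).1 (Finset.mem_erase.2 ⟨Ne.symm hne, he'⟩)).2.2
  exact el_cases (P := fun z => pos (early pos e) < pos z ∧ pos z ≤ pos (late pos e)) pos e'
    (key_erase hp he h1)

theorem CC (hσ : Pl σ) (hT : Tree σ T) (hp : PosOf (σ * al T) (.inr none) pos) {e e' : E}
    (he : e ∉ T) (he' : e' ∉ T) (hne : e ≠ e') :
    (pos (early pos e) < pos (early pos e') ∧ pos (early pos e') ≤ pos (late pos e)) ↔
      (pos (early pos e) < pos (late pos e') ∧ pos (late pos e') ≤ pos (late pos e)) := by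
  have h1 := plan_c hσ hT he he' hne
  exact el_cases (P := fun z => pos (early pos e) < pos z ∧ pos z ≤ pos (late pos e)) pos e'
    (key_insert hp he h1)

theorem late_lt (hp : PosOf (σ * al T) (.inr none) pos) (e : E) :
    pos (late pos e) < pos (.inr none) := by
  refine lt_of_le_of_ne (hp.le _) (fun h => ?_)
  have h1 := hp.inj h
  obtain ⟨b, -, h2⟩ := early_or pos e
  rw [h2] at h1
  simp at h1

theorem CZ (hσ : Pl σ) (hT : Tree σ T) (hp : PosOf (σ * al T) (.inr none) pos) {e : E}
    (he : e ∉ T) (k : Z) : ¬ (pos (early pos e) < pos (.inr (some k)) ∧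
      pos (.inr (some k)) ≤ pos (late pos e)) := by
  have h1 := plan_z hσ hT he k
  have h2 := key_insert hp he h1
  intro h3
  have h4 := (h2.2 h3).2
  have h5 := late_lt hp e
  omega

theorem V0 (hT : Tree σ T) (hp : PosOf (σ * al T) (.inr none) pos) {e : E} (he : e ∈ T)
    {x : XX E (Option Z)} (hx : σ.SameCycle x (late pos e)) :
    pos (early pos e) < pos x ∧ pos x ≤ pos (late pos e) :=
  (T1 hT hp he hx).2 ⟨early_lt hp.inj e, le_rfl⟩

theorem bs_max (hT : Tree σ T) (hp : PosOf (σ * al T) (.inr none) pos)
    {x : XX E (Option Z)} {v : Option {e : E // e ∈ T}} (hx : σ.SameCycle x (bs T pos v)) :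
    pos x ≤ pos (bs T pos v) := by
  rcases v with _ | v
  · exact hp.le x
  · exact (V0 hT hp v.2 hx).2

theorem bs_inj (T : Finset E) (pos : XX E (Option Z) → ℕ) {v w : Option {e : E // e ∈ T}}
    (h : bs T pos v = bs T pos w) : v = w := by
  rcases v with _ | v <;> rcases w with _ | w
  · rfl
  · obtain ⟨b, -, h2⟩ := early_or pos w.1
    have h3 : (.inr none : XX E (Option Z)) = late pos w.1 := h
    rw [h2] at h3
    simp at h3
  · obtain ⟨b, -, h2⟩ := early_or pos v.1
    have h3 : late pos v.1 = (.inr none : XX E (Option Z)) := h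
    rw [h2] at h3
    simp at h3
  · obtain ⟨b, -, h2⟩ := early_or pos v.1
    obtain ⟨b', -, h2'⟩ := early_or pos w.1
    have h3 : late pos v.1 = late pos w.1 := h
    rw [h2, h2'] at h3
    have h4 : v.1 = w.1 := by
      have := Sum.inl.inj h3
      exact congrArg Prod.fst this
    rw [Subtype.ext h4]

theorem V1 (hT : Tree σ T) (hp : PosOf (σ * al T) (.inr none) pos) (x : XX E (Option Z)) :
    ∃! v, σ.SameCycle x (bs T pos v) := by
  obtain ⟨m, hm, hmax⟩ := Set.exists_max_image {y | σ.SameCycle x y} pos (Set.toFinite _)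
    ⟨x, Equiv.Perm.SameCycle.refl _ _⟩
  have hm' : σ.SameCycle x m := hm
  have hσm : pos (σ m) ≤ pos m := hmax _ (Equiv.Perm.sameCycle_apply_right.2 hm')
  have hex : ∃ v, σ.SameCycle x (bs T pos v) := by
    by_cases h0 : m = .inr none
    · exact ⟨none, by rw [← show m = bs T pos none from h0]; exact hm'⟩
    · have h1 := hp.succ m h0
      rcases m with ⟨e, b⟩ | ρ
      · by_cases he : e ∈ T
        · have h2 : (al T : Equiv.Perm (XX E (Option Z))) (.inl (e, !b)) = .inl (e, b) := by
            rw [al_apply']
            simp [alF, he]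
          have h3 : pos (.inl (e, !b)) < pos (.inl (e, b)) := by
            by_contra h4
            have h5 := hp.succ (.inl (e, !b)) (by simp)
            rw [Equiv.Perm.mul_apply, h2] at h5
            omega
          refine ⟨some ⟨e, he⟩, ?_⟩
          have h6 : bs T pos (some ⟨e, he⟩) = .inl (e, b) := by
            change late pos e = _
            unfold late
            cases b
            · rw [if_pos (by simpa using h3)]
            · rw [if_neg]
              have h3' : pos (.inl (e, false)) < pos (.inl (e, true)) := by simpa using h3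
              omega
          rw [h6]
          exact hm'
        · exfalso
          have h2 : (al T : Equiv.Perm (XX E (Option Z))) (.inl (e, b)) = .inl (e, b) := by
            rw [al_apply']
            simp [alF, he]
          rw [Equiv.Perm.mul_apply, h2] at h1
          omega
      · exfalso
        have h2 : (al T : Equiv.Perm (XX E (Option Z))) (.inr ρ) = .inr ρ := rfl
        rw [Equiv.Perm.mul_apply, h2] at h1
        omega
  obtain ⟨v, hv⟩ := hex
  refine ⟨v, hv, fun w hw => ?_⟩
  have hw' : σ.SameCycle x (bs T pos w) := hw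
  apply bs_inj T pos
  apply hp.inj
  exact le_antisymm (bs_max hT hp (hw'.symm.trans hv)) (bs_max hT hp (hv.symm.trans hw'))

theorem V3 (hT : Tree σ T) (hp : PosOf (σ * al T) (.inr none) pos) {e : E} (he : e ∈ T)
    {v : Option {e : E // e ∈ T}} (hv : σ.SameCycle (early pos e) (bs T pos v)) :
    pos (late pos e) < pos (bs T pos v) := by
  obtain ⟨b, h1, h2⟩ := early_or pos e
  have h3 : (al T : Equiv.Perm (XX E (Option Z))) (late pos e) = early pos e := by
    rw [h1, h2]
    rw [al_apply']
    simp [alF, he]
  have h4 := hp.succ (late pos e) (by rw [h2]; simp)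
  rw [Equiv.Perm.mul_apply, h3] at h4
  have h5 := bs_max hT hp (Equiv.Perm.sameCycle_apply_left.2 hv)
  omega

theorem V4 (hT : Tree σ T) (hp : PosOf (σ * al T) (.inr none) pos) {e : E} (he : e ∈ T)
    {x : XX E (Option Z)} (h1 : pos (early pos e) < pos x) (h2 : pos x ≤ pos (late pos e))
    {v : Option {e : E // e ∈ T}} (hv : σ.SameCycle x (bs T pos v)) :
    ∃ u, v = some u ∧ pos (early pos e) ≤ pos (early pos u.1) ∧
      pos (late pos u.1) ≤ pos (late pos e) := by
  have h3 := (T1 hT hp he hv).1 ⟨h1, h2⟩
  rcases v with _ | u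
  · exfalso
    have h4 : pos (.inr none) ≤ pos (late pos e) := h3.2
    have h5 := late_lt hp e
    omega
  · refine ⟨u, rfl, ?_⟩
    have h4 : pos (early pos e) < pos (late pos u.1) ∧ pos (late pos u.1) ≤ pos (late pos e) := h3
    by_cases hue : e = u.1
    · rw [← hue]
      exact ⟨le_rfl, le_rfl⟩
    · exact ⟨((T2 hT hp he u.2 hue).2 h4).1.le, h4.2⟩

end PX

end GB
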